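/-
MP_e98778_an, FULL PROJECT, MODULE H2 (NS), part (a4): a lower bound for log det (1 + X).
-/
import Mathlib

open Matrix

namespace Pool.Agent.Helper83.NS

/-- Diagonal form of a symmetric matrix: determinant of `1 + X`, trace, sum of squares. -/
theorem exists_eigen {k : ℕ} {X : Matrix (Fin k) (Fin k) ℝ} (hX : ∀ i j, X i j = X j i) :
    ∃ lam : Fin k → ℝ, (1 + X).det = ∏ i, (1 + lam i) ∧ ∑ i, X i i = ∑ i, lam i ∧
      ∑ i, ∑ j, X i j ^ 2 = ∑ i, lam i ^ 2 := by
  have hH : X.IsHermitian := by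
    ext i j
    simp [Matrix.conjTranspose_apply, hX j i]
  set U : Matrix (Fin k) (Fin k) ℝ := (hH.eigenvectorUnitary : Matrix (Fin k) (Fin k) ℝ) with hU
  set D : Matrix (Fin k) (Fin k) ℝ := diagonal hH.eigenvalues with hD
  have hUU : U * star U = 1 := Unitary.coe_mul_star_self _
  have hUU' : star U * U = 1 := Unitary.coe_star_mul_self _
  have hs : X = U * D * star U := by
    have := hH.spectral_theorem
    rw [Unitary.conjStarAlgAut_apply] at this
    exact this
  refine ⟨hH.eigenvalues, ?_, ?_, ?_⟩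
  · have h1 : 1 + X = U * (1 + D) * star U := by
      rw [mul_add, add_mul, mul_one, hUU, ← hs]
    have h2 : (1 + D) = diagonal (fun i => 1 + hH.eigenvalues i) := by
      rw [hD, ← diagonal_one, diagonal_add]
    rw [h1, det_mul, det_mul, mul_comm (det U), mul_assoc, ← det_mul, hUU, det_one, mul_one, h2,
      det_diagonal]
  · have := hH.trace_eq_sum_eigenvalues
    simpa [Matrix.trace] using this
  · have h1 : ∑ i, ∑ j, X i j ^ 2 = (X * X).trace := by
      simp only [Matrix.trace, Matrix.diag_apply, Matrix.mul_apply]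
      apply Finset.sum_congr rfl
      intro i _
      apply Finset.sum_congr rfl
      intro j _
      rw [hX j i, sq]
    have h2 : X * X = U * (D * D) * star U := by
      conv_lhs => rw [hs]
      calc U * D * star U * (U * D * star U) = U * D * (star U * U) * (D * star U) := by
            simp only [mul_assoc]
        _ = _ := by rw [hUU', mul_one]; simp only [mul_assoc]
    rw [h1, h2, Matrix.trace_mul_comm, ← mul_assoc, hUU', one_mul, hD, diagonal_mul_diagonal,
      Matrix.trace_diagonal]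
    simp only [sq]

/-- Logarithm of the determinant of `1 + X`. -/
theorem log_det_ge {k : ℕ} {X : Matrix (Fin k) (Fin k) ℝ} (hX : ∀ i j, X i j = X j i)
    {η : ℝ} (hη : 0 ≤ η) (hb : ∀ i j, |X i j| ≤ η) (hk : k * η ≤ 1 / 2) :
    0 < (1 + X).det ∧
    ∑ i, X i i - (1 / 2) * ∑ i, ∑ j, X i j ^ 2 - 2 * (k * η) ^ 3 ≤ Real.log (1 + X).det := by
  obtain ⟨lam, h1, h2, h3⟩ := exists_eigen hX
  have hk0 : (0 : ℝ) ≤ k * η := mul_nonneg (Nat.cast_nonneg k) hη
  have hsq : ∑ i, ∑ j, X i j ^ 2 ≤ (k * η) ^ 2 := by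
    have : ∑ i : Fin k, ∑ j : Fin k, X i j ^ 2 ≤ ∑ i : Fin k, ∑ j : Fin k, η ^ 2 := by
      apply Finset.sum_le_sum; intro i _
      apply Finset.sum_le_sum; intro j _
      rw [← sq_abs]
      exact pow_le_pow_left₀ (abs_nonneg _) (hb i j) 2
    refine this.trans (le_of_eq ?_)
    simp
    ring
  have hlam2 : ∀ i, lam i ^ 2 ≤ (k * η) ^ 2 := by
    intro i
    have : lam i ^ 2 ≤ ∑ i, lam i ^ 2 :=
      Finset.single_le_sum (f := fun i => lam i ^ 2) (fun j _ => sq_nonneg _) (Finset.mem_univ i)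
    linarith
  have hlam : ∀ i, |lam i| ≤ k * η := fun i => abs_le_of_sq_le_sq (hlam2 i) hk0
  have hpos : ∀ i, 0 < 1 + lam i := by
    intro i
    have := (abs_le.1 (hlam i)).1
    linarith
  constructor
  · rw [h1]; exact Finset.prod_pos fun i _ => hpos i
  · rw [h1, Real.log_prod (fun i _ => (hpos i).ne'), h2, h3]
    have hlog : ∀ i, lam i - (1 / 2) * lam i ^ 2 - 2 * (k * η) * lam i ^ 2
        ≤ Real.log (1 + lam i) := by
      intro i
      have ha : |-(lam i)| < 1 := by rw [abs_neg]; linarith [hlam i]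
      have h := Real.abs_log_sub_add_sum_range_le ha 2
      simp only [Finset.sum_range_succ, Finset.sum_range_zero, abs_neg] at h
      have h4 : |lam i| ^ 3 / (1 - |lam i|) ≤ 2 * |lam i| ^ 3 := by
        rw [div_le_iff₀ (by linarith [hlam i])]
        have := hlam i
        nlinarith [pow_nonneg (abs_nonneg (lam i)) 3]
      have h5 : |lam i| ^ 3 ≤ (k * η) * lam i ^ 2 := by
        rw [pow_succ, sq_abs, mul_comm]
        exact mul_le_mul_of_nonneg_right (hlam i) (sq_nonneg _)
      have h6 := (abs_le.1 h).1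
      norm_num at h6
      nlinarith
    calc ∑ i, lam i - 1 / 2 * ∑ i, lam i ^ 2 - 2 * (k * η) ^ 3
        ≤ ∑ i, lam i - 1 / 2 * ∑ i, lam i ^ 2 - 2 * (k * η) * ∑ i, lam i ^ 2 := by
          rw [h3] at hsq
          nlinarith
      _ = ∑ i, (lam i - (1 / 2) * lam i ^ 2 - 2 * (k * η) * lam i ^ 2) := by
          rw [Finset.sum_sub_distrib, Finset.sum_sub_distrib, Finset.mul_sum, Finset.mul_sum]
      _ ≤ _ := Finset.sum_le_sum fun i _ => hlog i

end Pool.Agent.Helper83.NS
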