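/-
MP_e98778_an, FULL PROJECT, MODULE H2 (NS), part (b): the minimum principle.

The real linear map z |-> a z + b conj z of the plane is coded by the pair (a,b); it has
determinant |a|^2 - |b|^2.  A function F on SL_2(R) which is left invariant under rotations and
satisfies the local inequality  sum_{i<4} F(D_h k_i g) <= 4 (1 + C h^3) F(g)  for small h,
satisfies  ∫ F(D_t k_θ g) dθ <= 2 π F(g)  for every t.
-/
import Mathlib

open MeasureTheory Set
open scoped ComplexConjugate Real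

namespace Pool.Agent.Helper83.NS

/-- Composition of the maps `z ↦ a z + b conj z`. -/
def mul (g h : ℂ × ℂ) : ℂ × ℂ :=
  (g.1 * h.1 + g.2 * conj h.2, g.1 * h.2 + g.2 * conj h.1)

/-- The group `SL_2(ℝ)`. -/
def SL : Set (ℂ × ℂ) := {g | Complex.normSq g.1 - Complex.normSq g.2 = 1}

/-- Rotation by `θ`. -/
noncomputable def rot (θ : ℝ) : ℂ × ℂ := (Complex.exp (θ * Complex.I), 0)

/-- The diagonal matrix `diag (e^{-t}, e^t)`. -/
noncomputable def dil (t : ℝ) : ℂ × ℂ := ((Real.cosh t : ℂ), -(Real.sinh t : ℂ))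

/-- Half of the squared Frobenius norm. -/
noncomputable def fro (g : ℂ × ℂ) : ℝ := Complex.normSq g.1 + Complex.normSq g.2

theorem mul_assoc' (g h k : ℂ × ℂ) : mul (mul g h) k = mul g (mul h k) := by
  ext1 <;> simp [mul] <;> ring

theorem mul_mem {g h : ℂ × ℂ} (hg : g ∈ SL) (hh : h ∈ SL) : mul g h ∈ SL := by
  simp only [SL, mem_ofPred_eq] at *
  have key : Complex.normSq (mul g h).1 - Complex.normSq (mul g h).2
      = (Complex.normSq g.1 - Complex.normSq g.2) * (Complex.normSq h.1 - Complex.normSq h.2) := by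
    simp only [mul, Complex.normSq_apply, Complex.add_re, Complex.add_im, Complex.mul_re,
      Complex.mul_im, Complex.conj_re, Complex.conj_im]
    ring
  rw [key, hg, hh]; ring

theorem rot_mem (θ : ℝ) : rot θ ∈ SL := by
  have h : Complex.normSq (Complex.exp (θ * Complex.I)) = 1 := by
    rw [Complex.normSq_eq_norm_sq, Complex.norm_exp_ofReal_mul_I]; norm_num
  simp [SL, rot, h]

theorem dil_mem (t : ℝ) : dil t ∈ SL := by
  have := Real.cosh_sq t
  simp only [SL, dil, mem_ofPred_eq, Complex.normSq_neg, Complex.normSq_ofReal]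
  nlinarith

theorem rot_zero : rot 0 = (1, 0) := by simp [rot]

theorem dil_zero : dil 0 = (1, 0) := by simp [dil]

theorem one_mul' (g : ℂ × ℂ) : mul (1, 0) g = g := by ext1 <;> simp [mul]

theorem mul_one' (g : ℂ × ℂ) : mul g (1, 0) = g := by ext1 <;> simp [mul]

theorem rot_add (θ φ : ℝ) : mul (rot θ) (rot φ) = rot (θ + φ) := by
  ext1
  · simp [mul, rot, ← Complex.exp_add]; ring_nf
  · simp [mul, rot]

theorem rot_two_pi (θ : ℝ) : rot (θ + 2 * π) = rot θ := by
  have : ((θ + 2 * π : ℝ) : ℂ) * Complex.I = θ * Complex.I + 2 * π * Complex.I := by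
    push_cast; ring
  simp only [rot]
  rw [this, Complex.exp_periodic]

theorem fro_ge {g : ℂ × ℂ} (hg : g ∈ SL) : 1 ≤ fro g := by
  have h1 := Complex.normSq_nonneg g.2
  simp only [SL, mem_ofPred_eq] at hg
  unfold fro; linarith

theorem fro_rot (θ : ℝ) (g : ℂ × ℂ) : fro (mul (rot θ) g) = fro g := by
  have h : Complex.normSq (Complex.exp (θ * Complex.I)) = 1 := by
    rw [Complex.normSq_eq_norm_sq, Complex.norm_exp_ofReal_mul_I]; norm_num
  simp [fro, mul, rot, h]

theorem fro_dil (t : ℝ) : fro (dil t) = Real.cosh (2 * t) := by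
  rw [Real.cosh_two_mul]
  simp only [fro, dil, Complex.normSq_neg, Complex.normSq_ofReal]
  ring

/-- The growth of the norm under `dil h`. -/
theorem fro_dil_mul (h : ℝ) (g : ℂ × ℂ) :
    fro (mul (dil h) g) = Real.cosh (2 * h) * fro g
      - 2 * Real.sinh (2 * h) * (g.1 * g.2).re := by
  rw [Real.cosh_two_mul, Real.sinh_two_mul]
  simp only [fro, mul, dil, Complex.normSq_apply, Complex.add_re, Complex.add_im, Complex.mul_re,
      Complex.mul_im, Complex.conj_re, Complex.conj_im, Complex.neg_re, Complex.neg_im,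
      Complex.ofReal_re, Complex.ofReal_im]
  ring

theorem rot_mul (θ : ℝ) (g : ℂ × ℂ) :
    mul (rot θ) g = (Complex.exp (θ * Complex.I) * g.1, Complex.exp (θ * Complex.I) * g.2) := by
  ext1 <;> simp [mul, rot]

/-- Cartan decomposition. -/
theorem cartan {g : ℂ × ℂ} (hg : g ∈ SL) {t : ℝ} (ht : 0 ≤ t) (h : fro g = Real.cosh (2 * t)) :
    ∃ θ φ : ℝ, g = mul (rot θ) (mul (dil t) (rot φ)) := by
  obtain ⟨a, b⟩ := g
  have h1 : Complex.normSq a - Complex.normSq b = 1 := hg
  have h2 : Complex.normSq a + Complex.normSq b = Real.cosh (2 * t) := h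
  rw [Real.cosh_two_mul] at h2
  have h3 := Real.cosh_sq t
  have ha : ‖a‖ = Real.cosh t := by
    have : ‖a‖ ^ 2 = Real.cosh t ^ 2 := by
      rw [← Complex.normSq_eq_norm_sq]; nlinarith
    have hp := Real.cosh_pos t
    exact (sq_eq_sq₀ (norm_nonneg _) hp.le).1 this
  have hb : ‖b‖ = Real.sinh t := by
    have : ‖b‖ ^ 2 = Real.sinh t ^ 2 := by
      rw [← Complex.normSq_eq_norm_sq]; nlinarith
    exact (sq_eq_sq₀ (norm_nonneg _) (Real.sinh_nonneg_iff.2 ht)).1 this
  -- polar forms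
  have ha' : a = Real.cosh t * Complex.exp (Complex.arg a * Complex.I) := by
    rw [← ha]; exact (Complex.norm_mul_exp_arg_mul_I a).symm
  have hb' : b = -(Real.sinh t * Complex.exp ((Complex.arg (-b) : ℝ) * Complex.I)) := by
    have := Complex.norm_mul_exp_arg_mul_I (-b)
    rw [norm_neg, hb] at this
    rw [this]; ring
  refine ⟨(Complex.arg a + Complex.arg (-b)) / 2, (Complex.arg a - Complex.arg (-b)) / 2, ?_⟩
  ext1
  · conv_lhs => rw [ha']
    simp only [mul, rot, dil, map_zero, mul_zero, add_zero, zero_mul]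
    rw [mul_comm, mul_comm (Real.cosh t : ℂ), ← mul_assoc, ← Complex.exp_add]
    congr 2
    push_cast; ring
  · conv_lhs => rw [hb']
    simp only [mul, rot, dil, map_zero, mul_zero, add_zero, zero_mul, zero_add]
    rw [← Complex.exp_conj]
    simp only [map_mul, Complex.conj_I, Complex.conj_ofReal]
    rw [mul_comm (-(Real.sinh t : ℂ)), ← mul_assoc, ← Complex.exp_add, mul_neg]
    rw [mul_comm (Real.sinh t : ℂ)]
    congr 3
    push_cast; ring

/-- The four rotations. -/
theorem fro_four (h : ℝ) (g : ℂ × ℂ) :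
    ∑ i ∈ Finset.range 4, fro (mul (dil h) (mul (rot (i * (π / 4))) g))
      = 4 * Real.cosh (2 * h) * fro g := by
  have e : ∀ i : ℕ, ((mul (rot (i * (π / 4))) g).1 * (mul (rot (i * (π / 4))) g).2)
      = Complex.exp (((i * (π / 2) : ℝ) : ℂ) * Complex.I) * (g.1 * g.2) := by
    intro i
    rw [rot_mul]
    have : Complex.exp (((i * (π / 2) : ℝ) : ℂ) * Complex.I)
        = Complex.exp (((i * (π / 4) : ℝ) : ℂ) * Complex.I)
          * Complex.exp (((i * (π / 4) : ℝ) : ℂ) * Complex.I) := by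
      rw [← Complex.exp_add]; congr 1; push_cast; ring
    rw [this]; ring
  simp only [fro_dil_mul, fro_rot, e]
  have h0 : Complex.exp ((((0 : ℕ) * (π / 2) : ℝ) : ℂ) * Complex.I) = 1 := by simp
  have h1 : Complex.exp ((((1 : ℕ) * (π / 2) : ℝ) : ℂ) * Complex.I) = Complex.I := by
    rw [Complex.exp_mul_I, ← Complex.ofReal_cos, ← Complex.ofReal_sin]; simp
  have h2 : Complex.exp ((((2 : ℕ) * (π / 2) : ℝ) : ℂ) * Complex.I) = -1 := by
    rw [Complex.exp_mul_I, ← Complex.ofReal_cos, ← Complex.ofReal_sin]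
    have : ((2 : ℕ) : ℝ) * (π / 2) = π := by push_cast; ring
    rw [this]; simp
  have h3 : Complex.exp ((((3 : ℕ) * (π / 2) : ℝ) : ℂ) * Complex.I) = -Complex.I := by
    rw [Complex.exp_mul_I, ← Complex.ofReal_cos, ← Complex.ofReal_sin]
    have : ((3 : ℕ) : ℝ) * (π / 2) = π + π / 2 := by push_cast; ring
    rw [this, Real.cos_add, Real.sin_add]; simp
  simp only [Finset.sum_range_succ, Finset.sum_range_zero, h0, h1, h2, h3]
  simp only [Complex.mul_re, Complex.neg_re, Complex.neg_im, Complex.one_re, Complex.one_im,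
    Complex.I_re, Complex.I_im]
  ring

theorem fro_dil_le {h : ℝ} (hh : 0 ≤ h) (g : ℂ × ℂ) :
    fro (mul (dil h) g) ≤ Real.exp (2 * h) * fro g := by
  rw [fro_dil_mul, ← Real.cosh_add_sinh]
  have h1 : |(g.1 * g.2).re| ≤ ‖g.1‖ * ‖g.2‖ := by
    rw [← norm_mul]; exact Complex.abs_re_le_norm _
  have h2 : 2 * (‖g.1‖ * ‖g.2‖) ≤ fro g := by
    unfold fro
    rw [Complex.normSq_eq_norm_sq, Complex.normSq_eq_norm_sq]
    nlinarith [sq_nonneg (‖g.1‖ - ‖g.2‖)]
  have h3 : 0 ≤ Real.sinh (2 * h) := Real.sinh_nonneg_iff.2 (by linarith)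
  have h4 := abs_le.1 h1
  nlinarith [mul_nonneg h3 (by linarith [h4.1] : 0 ≤ fro g + 2 * (g.1 * g.2).re)]

theorem isClosed_SL : IsClosed SL := by
  apply isClosed_eq _ continuous_const
  exact (Complex.continuous_normSq.comp continuous_fst).sub
    (Complex.continuous_normSq.comp continuous_snd)

theorem continuous_fro : Continuous fro :=
  (Complex.continuous_normSq.comp continuous_fst).add
    (Complex.continuous_normSq.comp continuous_snd)

theorem isCompact_ball (R : ℝ) : IsCompact {g : ℂ × ℂ | g ∈ SL ∧ fro g ≤ R} := by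
  apply Metric.isCompact_of_isClosed_isBounded
  · exact isClosed_SL.inter (isClosed_le continuous_fro continuous_const)
  · rw [isBounded_iff_forall_norm_le]
    refine ⟨Real.sqrt R, fun g hg => ?_⟩
    have h1 : ‖g.1‖ ^ 2 + ‖g.2‖ ^ 2 ≤ R := by
      have := hg.2
      unfold fro at this
      rwa [Complex.normSq_eq_norm_sq, Complex.normSq_eq_norm_sq] at this
    rw [Prod.norm_def, max_le_iff]
    constructor <;> apply Real.le_sqrt_of_sq_le <;> nlinarith [sq_nonneg ‖g.1‖, sq_nonneg ‖g.2‖]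

/-- Continuity of an average. -/
theorem continuousOn_avg {F : ℂ × ℂ → ℝ} (hc : ContinuousOn F SL) {g₀ : ℂ × ℂ} (hg₀ : g₀ ∈ SL) :
    ContinuousOn (fun g => ∫ θ in (0 : ℝ)..(2 * π), F (mul g (mul (rot θ) g₀))) SL := by
  rw [continuousOn_iff_continuous_domRestrict]
  have hlc : LocallyCompactSpace SL :=
    isClosed_SL.isClosedEmbedding_subtypeVal.locallyCompactSpace
  have hF : Continuous (SL.domRestrict F) := continuousOn_iff_continuous_domRestrict.1 hc
  have hm : Continuous (fun p : SL × ℝ => mul (p.1 : ℂ × ℂ) (mul (rot p.2) g₀)) := by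
    unfold mul rot
    fun_prop
  have h2 : Continuous (Function.uncurry
      (fun (g : SL) (θ : ℝ) => F (mul (g : ℂ × ℂ) (mul (rot θ) g₀)))) := by
    have : (Function.uncurry (fun (g : SL) (θ : ℝ) => F (mul (g : ℂ × ℂ) (mul (rot θ) g₀))))
        = (SL.domRestrict F) ∘ (fun p : SL × ℝ =>
          (⟨mul (p.1 : ℂ × ℂ) (mul (rot p.2) g₀),
            mul_mem p.1.2 (mul_mem (rot_mem _) hg₀)⟩ : SL)) := by
      ext p; rfl
    rw [this]
    exact hF.comp (hm.subtype_mk _)
  exact intervalIntegral.continuous_parametric_intervalIntegral_of_continuous' h2 _ _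

theorem continuous_slice {F : ℂ × ℂ → ℝ} (hc : ContinuousOn F SL) {g g₀ : ℂ × ℂ}
    (hg : g ∈ SL) (hg₀ : g₀ ∈ SL) :
    Continuous (fun θ : ℝ => F (mul g (mul (rot θ) g₀))) := by
  have hF : Continuous (SL.domRestrict F) := continuousOn_iff_continuous_domRestrict.1 hc
  have hm : Continuous (fun p : ℝ => mul g (mul (rot p) g₀)) := by
    unfold mul rot
    fun_prop
  have : (fun θ : ℝ => F (mul g (mul (rot θ) g₀)))
      = (SL.domRestrict F) ∘ (fun p : ℝ =>
        (⟨mul g (mul (rot p) g₀), mul_mem hg (mul_mem (rot_mem _) hg₀)⟩ : SL)) := by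
    ext p; rfl
  rw [this]
  exact hF.comp (hm.subtype_mk _)

/-- **Minimum principle**. -/
theorem avg_le {F : ℂ × ℂ → ℝ} (hc : ContinuousOn F SL) (hpos : ∀ g ∈ SL, 0 ≤ F g)
    (hK : ∀ θ : ℝ, ∀ g ∈ SL, F (mul (rot θ) g) = F g) {C h₀ : ℝ} (hh₀ : 0 < h₀)
    (hloc : ∀ h : ℝ, 0 < h → h ≤ h₀ → ∀ g ∈ SL,
      ∑ i ∈ Finset.range 4, F (mul (dil h) (mul (rot (i * (π / 4))) g))
        ≤ 4 * (1 + C * h ^ 3) * F g)
    {g₀ : ℂ × ℂ} (hg₀ : g₀ ∈ SL) {t : ℝ} (ht : 0 ≤ t) :
    ∫ θ in (0 : ℝ)..(2 * π), F (mul (dil t) (mul (rot θ) g₀)) ≤ 2 * π * F g₀ := by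
  set f : ℂ × ℂ → ℝ := fun g => ∫ θ in (0 : ℝ)..(2 * π), F (mul g (mul (rot θ) g₀)) with hf
  have hpi : (0 : ℝ) ≤ 2 * π := by positivity
  have hfc : ContinuousOn f SL := continuousOn_avg hc hg₀
  have hf0 : ∀ g ∈ SL, 0 ≤ f g := fun g hg =>
    intervalIntegral.integral_nonneg hpi (fun θ _ => hpos _ (mul_mem hg (mul_mem (rot_mem _) hg₀)))
  have hfL : ∀ θ : ℝ, ∀ g ∈ SL, f (mul (rot θ) g) = f g := by
    intro θ g hg
    simp only [hf]
    congr 1; ext φ
    rw [mul_assoc', hK θ _ (mul_mem hg (mul_mem (rot_mem _) hg₀))]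
  have hfR : ∀ φ : ℝ, ∀ g : ℂ × ℂ, f (mul g (rot φ)) = f g := by
    intro φ g
    simp only [hf]
    have e : ∀ θ : ℝ, F (mul (mul g (rot φ)) (mul (rot θ) g₀))
        = (fun x => F (mul g (mul (rot x) g₀))) (θ + φ) := by
      intro θ
      simp only
      rw [mul_assoc', ← mul_assoc' (rot φ), rot_add, add_comm φ θ]
    simp only [e]
    rw [intervalIntegral.integral_comp_add_right (fun x => F (mul g (mul (rot x) g₀))) φ]
    have hper : Function.Periodic (fun x => F (mul g (mul (rot x) g₀))) (2 * π) := by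
      intro x
      simp only [rot_two_pi]
    have := hper.intervalIntegral_add_eq φ 0
    rw [zero_add] at this ⊢
    rw [add_comm (2 * π) φ]
    exact this
  have hf1 : f (1, 0) = 2 * π * F g₀ := by
    simp only [hf]
    have : ∀ θ : ℝ, F (mul (1, 0) (mul (rot θ) g₀)) = F g₀ := by
      intro θ
      rw [one_mul', hK θ _ hg₀]
    simp only [this]
    rw [intervalIntegral.integral_const]
    simp
  have h1mem : ((1, 0) : ℂ × ℂ) ∈ SL := by simp [SL]
  have hfloc : ∀ h : ℝ, 0 < h → h ≤ h₀ → ∀ g ∈ SL,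
      ∑ i ∈ Finset.range 4, f (mul (dil h) (mul (rot (i * (π / 4))) g))
        ≤ 4 * (1 + C * h ^ 3) * f g := by
    intro h hh hh' g hg
    simp only [hf]
    rw [← intervalIntegral.integral_finsetSum, ← intervalIntegral.integral_const_mul]
    · apply intervalIntegral.integral_mono_on hpi
      · apply Continuous.intervalIntegrable
        apply continuous_finsetSum
        intro i _
        exact continuous_slice hc (mul_mem (dil_mem _) (mul_mem (rot_mem _) hg)) hg₀
      · apply Continuous.intervalIntegrable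
        exact (continuous_slice hc hg hg₀).const_mul _
      · intro θ _
        have := hloc h hh hh' (mul g (mul (rot θ) g₀)) (mul_mem hg (mul_mem (rot_mem _) hg₀))
        simpa only [mul_assoc'] using this
    · intro i _
      apply Continuous.intervalIntegrable
      exact continuous_slice hc (mul_mem (dil_mem _) (mul_mem (rot_mem _) hg)) hg₀
  -- the contradiction
  by_contra hcon
  push Not at hcon
  have hlt : f (1, 0) < f (dil t) := by rw [hf1]; exact hcon
  have ht0 : t ≠ 0 := by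
    rintro rfl
    rw [dil_zero] at hlt
    exact lt_irrefl _ hlt
  have htpos : 0 < t := lt_of_le_of_ne ht (Ne.symm ht0)
  have hcosh : 1 < Real.cosh (2 * t) := Real.one_lt_cosh.2 (by positivity)
  obtain ⟨ε, hε, hεlt⟩ : ∃ ε : ℝ, 0 < ε ∧ ε * (Real.cosh (2 * t) - 1) < f (dil t) - f (1, 0) := by
    refine ⟨(f (dil t) - f (1, 0)) / (2 * (Real.cosh (2 * t) - 1)), by
      apply div_pos <;> linarith, ?_⟩
    have h1 : 0 < Real.cosh (2 * t) - 1 := by linarith
    have h2 : (f (dil t) - f (1, 0)) / (2 * (Real.cosh (2 * t) - 1)) * (Real.cosh (2 * t) - 1)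
        = (f (dil t) - f (1, 0)) / 2 := by field_simp
    rw [h2]; linarith
  set Φ : ℂ × ℂ → ℝ := fun g => f g - ε * fro g with hΦ
  have hΦc : ContinuousOn Φ SL := hfc.sub ((continuous_fro.const_mul ε).continuousOn)
  set B : Set (ℂ × ℂ) := {g | g ∈ SL ∧ fro g ≤ Real.cosh (2 * t)} with hB
  have hBc : IsCompact B := isCompact_ball _
  have hBne : B.Nonempty := ⟨(1, 0), h1mem, by simp [fro]⟩
  obtain ⟨g, hgB, hmin⟩ := hBc.exists_isMinOn hBne (hΦc.mono (fun x hx => hx.1))
  have hgSL : g ∈ SL := hgB.1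
  have hg1 : Φ g ≤ Φ (1, 0) := hmin (show ((1, 0) : ℂ × ℂ) ∈ B from ⟨h1mem, by simp [fro]⟩)
  have hΦ1 : Φ (1, 0) < Φ (dil t) := by
    simp only [hΦ, fro_dil]
    have : fro ((1, 0) : ℂ × ℂ) = 1 := by simp [fro]
    rw [this]
    linarith
  have hint : fro g < Real.cosh (2 * t) := by
    rcases lt_or_eq_of_le hgB.2 with h | h
    · exact h
    exfalso
    obtain ⟨θ, φ, e⟩ := cartan hgSL ht h
    have : f g = f (dil t) := by
      rw [e, hfL θ _ (mul_mem (dil_mem _) (rot_mem _)), hfR]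
    have : Φ g = Φ (dil t) := by
      simp only [hΦ, this, fro_dil, h]
    linarith
  have hgfro : 1 ≤ fro g := fro_ge hgSL
  -- choose a small h
  have hev : ∀ᶠ h in nhdsWithin (0 : ℝ) (Ioi 0), Real.exp (2 * h) * fro g < Real.cosh (2 * t) := by
    have : ContinuousAt (fun h : ℝ => Real.exp (2 * h) * fro g) 0 := by fun_prop
    have h2 := this.eventually (Iio_mem_nhds (by simpa using hint))
    exact (Filter.Eventually.filter_mono nhdsWithin_le_nhds h2)
  have hev2 : ∀ᶠ h in nhdsWithin (0 : ℝ) (Ioi 0), h ≤ h₀ := by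
    have : ∀ᶠ h in nhds (0 : ℝ), h < h₀ := Iio_mem_nhds hh₀
    exact (Filter.Eventually.filter_mono nhdsWithin_le_nhds this).mono (fun x hx => hx.le)
  have hev3 : ∀ᶠ h in nhdsWithin (0 : ℝ) (Ioi 0), h * (C * f g) < 2 * ε := by
    have : ContinuousAt (fun h : ℝ => h * (C * f g)) 0 := by fun_prop
    have h2 := this.eventually (Iio_mem_nhds (by simpa using hε : (fun h : ℝ => h * (C * f g)) 0 < 2 * ε))
    exact (Filter.Eventually.filter_mono nhdsWithin_le_nhds h2)
  have hev4 : ∀ᶠ h in nhdsWithin (0 : ℝ) (Ioi 0), 0 < h := self_mem_nhdsWithin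
  obtain ⟨h, h1, h2, h3, h4⟩ := (hev.and (hev2.and (hev3.and hev4))).exists
  have hmem : ∀ i : ℕ, mul (dil h) (mul (rot (i * (π / 4))) g) ∈ B := by
    intro i
    refine ⟨mul_mem (dil_mem _) (mul_mem (rot_mem _) hgSL), ?_⟩
    refine (fro_dil_le h4.le _).trans ?_
    rw [fro_rot]; exact h1.le
  have hsum : 4 * Φ g ≤ ∑ i ∈ Finset.range 4, Φ (mul (dil h) (mul (rot (i * (π / 4))) g)) := by
    have : ∑ i ∈ Finset.range 4, Φ g ≤ ∑ i ∈ Finset.range 4,
        Φ (mul (dil h) (mul (rot (i * (π / 4))) g)) :=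
      Finset.sum_le_sum (fun i _ => hmin (hmem i))
    simpa using this
  have hsum2 : ∑ i ∈ Finset.range 4, Φ (mul (dil h) (mul (rot (i * (π / 4))) g))
      = (∑ i ∈ Finset.range 4, f (mul (dil h) (mul (rot (i * (π / 4))) g)))
        - ε * (4 * Real.cosh (2 * h) * fro g) := by
    rw [← fro_four, Finset.mul_sum, ← Finset.sum_sub_distrib]
  have hloc' := hfloc h h4 h2 g hgSL
  have hcosh2 : 1 + 2 * h ^ 2 ≤ Real.cosh (2 * h) := by
    have h5 : h ≤ Real.sinh h := Real.self_le_sinh_iff.2 h4.le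
    have h6 := Real.cosh_sq h
    rw [Real.cosh_two_mul]
    nlinarith
  rw [hsum2] at hsum
  simp only [hΦ] at hsum
  have hfin : ε * (2 * h ^ 2) ≤ C * h ^ 3 * f g := by
    have : ε * (2 * h ^ 2) ≤ ε * ((Real.cosh (2 * h) - 1) * fro g) := by
      apply mul_le_mul_of_nonneg_left _ hε.le
      nlinarith
    nlinarith
  have : 2 * ε ≤ h * (C * f g) := by
    have hh2 : 0 < h ^ 2 := by positivity
    have : (2 * ε) * h ^ 2 ≤ (h * (C * f g)) * h ^ 2 := by nlinarith
    exact le_of_mul_le_mul_right this hh2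
  linarith

end Pool.Agent.Helper83.NS
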