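/-
MP_e98778_an, FULL PROJECT, MODULE H2 (NS), part (a1): the action of SL_2(R) on a real Hilbert
space with a rotation J and a reflection S (model: L^2(D; R^2)), and the quadratic estimates.
-/
import Mathlib
import Pool.Agent.Helper83.NS.MinP

open MeasureTheory Set
open scoped ComplexConjugate Real InnerProductSpace

namespace Pool.Agent.Helper83.NS

variable {L : Type*} [NormedAddCommGroup L] [InnerProductSpace ℝ L]

/-- A rotation `J` and a reflection `S`. -/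
structure Refl (L : Type*) [NormedAddCommGroup L] [InnerProductSpace ℝ L] where
  J : L →L[ℝ] L
  S : L →L[ℝ] L
  Jskew : ∀ x y, ⟪J x, y⟫_ℝ = -⟪x, J y⟫_ℝ
  JJ : ∀ x, J (J x) = -x
  Ssymm : ∀ x y, ⟪S x, y⟫_ℝ = ⟪x, S y⟫_ℝ
  SS : ∀ x, S (S x) = x
  SJ : ∀ x, S (J x) = -J (S x)

namespace Refl

variable (R : Refl L)

/-- `z ↦ a z + b conj z`. -/
noncomputable def act (g : ℂ × ℂ) : L →L[ℝ] L :=
  g.1.re • ContinuousLinearMap.id ℝ L + g.1.im • R.J + g.2.re • R.S + g.2.im • (R.J.comp R.S)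

theorem act_apply (g : ℂ × ℂ) (x : L) :
    R.act g x = g.1.re • x + g.1.im • R.J x + g.2.re • R.S x + g.2.im • R.J (R.S x) := by
  simp [act]

theorem act_mul (g h : ℂ × ℂ) (x : L) : R.act (mul g h) x = R.act g (R.act h x) := by
  simp only [act_apply, mul, map_add, map_smul, R.JJ, R.SJ, R.SS, map_neg, smul_neg, neg_neg,
    Complex.add_re, Complex.add_im, Complex.mul_re, Complex.mul_im, Complex.conj_re,
    Complex.conj_im]
  module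

theorem act_one (x : L) : R.act (1, 0) x = x := by
  simp [act_apply]

theorem norm_J (x : L) : ‖R.J x‖ = ‖x‖ := by
  have : ‖R.J x‖ ^ 2 = ‖x‖ ^ 2 := by
    rw [← real_inner_self_eq_norm_sq, ← real_inner_self_eq_norm_sq, R.Jskew, R.JJ, inner_neg_right,
      neg_neg]
  exact (sq_eq_sq₀ (norm_nonneg _) (norm_nonneg _)).1 this

theorem norm_S (x : L) : ‖R.S x‖ = ‖x‖ := by
  have : ‖R.S x‖ ^ 2 = ‖x‖ ^ 2 := by
    rw [← real_inner_self_eq_norm_sq, ← real_inner_self_eq_norm_sq, R.Ssymm, R.SS]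
  exact (sq_eq_sq₀ (norm_nonneg _) (norm_nonneg _)).1 this

theorem inner_J_self (x : L) : ⟪R.J x, x⟫_ℝ = 0 := by
  have := R.Jskew x x
  rw [real_inner_comm x (R.J x)] at this
  linarith [real_inner_comm x (R.J x)]

theorem inner_JJ (x y : L) : ⟪R.J x, R.J y⟫_ℝ = ⟪x, y⟫_ℝ := by
  rw [R.Jskew, R.JJ, inner_neg_right, neg_neg]

theorem JS_symm (x y : L) : ⟪R.J (R.S x), y⟫_ℝ = ⟪x, R.J (R.S y)⟫_ℝ := by
  rw [R.Jskew, R.Ssymm, R.SJ, inner_neg_right, neg_neg]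

/-- The symplectic form is invariant. -/
theorem inner_J_act {g : ℂ × ℂ} (hg : g ∈ SL) (x y : L) :
    ⟪R.J (R.act g x), R.act g y⟫_ℝ = ⟪R.J x, y⟫_ℝ := by
  have h1 : Complex.normSq g.1 - Complex.normSq g.2 = 1 := hg
  rw [Complex.normSq_apply, Complex.normSq_apply] at h1
  have e1 : ⟪R.J x, R.S y⟫_ℝ = -⟪R.J (R.S x), y⟫_ℝ := by
    rw [← R.Ssymm, R.SJ, inner_neg_left]
  have e2 : ⟪R.J (R.S x), R.S y⟫_ℝ = -⟪R.J x, y⟫_ℝ := by
    rw [← R.Ssymm, R.SJ, R.SS, inner_neg_left]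
  have e3 : ⟪R.S x, R.S y⟫_ℝ = ⟪x, y⟫_ℝ := by rw [R.Ssymm, R.SS]
  have e4 : ⟪R.J x, R.J (R.S y)⟫_ℝ = ⟪R.S x, y⟫_ℝ := by rw [R.inner_JJ, R.Ssymm]
  have e5 : ⟪R.J (R.S x), R.J y⟫_ℝ = ⟪R.S x, y⟫_ℝ := R.inner_JJ _ _
  have e6 : ⟪R.J (R.S x), R.J (R.S y)⟫_ℝ = ⟪x, y⟫_ℝ := by rw [R.inner_JJ, e3]
  have e7 : ⟪x, R.J y⟫_ℝ = -⟪R.J x, y⟫_ℝ := by rw [R.Jskew]; ring
  have e8 : ⟪x, R.S y⟫_ℝ = ⟪R.S x, y⟫_ℝ := (R.Ssymm _ _).symm
  have e9 : ⟪x, R.J (R.S y)⟫_ℝ = ⟪R.J (R.S x), y⟫_ℝ := (R.JS_symm _ _).symm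
  have e10 : ⟪R.S x, R.J y⟫_ℝ = -⟪R.J (R.S x), y⟫_ℝ := by rw [R.Jskew]; ring
  have e11 : ⟪R.S x, R.J (R.S y)⟫_ℝ = ⟪R.J x, y⟫_ℝ := by
    rw [← R.JS_symm, R.SS]
  have e12 : ⟪R.J x, R.J y⟫_ℝ = ⟪x, y⟫_ℝ := R.inner_JJ _ _
  simp only [act_apply, map_add, map_smul, R.JJ, smul_neg, inner_add_left, inner_add_right,
    real_inner_smul_left, real_inner_smul_right, inner_neg_left, e1, e2, e3, e4, e5, e6, e7, e8,
    e9, e10, e11, e12]
  linear_combination ⟪R.J x, y⟫_ℝ * h1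

/-- The rotations are isometries. -/
theorem inner_rot (θ : ℝ) (x y : L) :
    ⟪R.act (rot θ) x, R.act (rot θ) y⟫_ℝ = ⟪x, y⟫_ℝ := by
  have h := Real.cos_sq_add_sin_sq θ
  have e7 : ⟪x, R.J y⟫_ℝ = -⟪R.J x, y⟫_ℝ := by rw [R.Jskew]; ring
  simp only [act_apply, rot, Complex.exp_ofReal_mul_I_re, Complex.exp_ofReal_mul_I_im,
    Complex.zero_re, Complex.zero_im, zero_smul, add_zero, inner_add_left, inner_add_right,
    real_inner_smul_left, real_inner_smul_right, R.inner_JJ, e7]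
  linear_combination ⟪x, y⟫_ℝ * h

theorem norm_rot (θ : ℝ) (x : L) : ‖R.act (rot θ) x‖ = ‖x‖ := by
  have : ‖R.act (rot θ) x‖ ^ 2 = ‖x‖ ^ 2 := by
    rw [← real_inner_self_eq_norm_sq, ← real_inner_self_eq_norm_sq, R.inner_rot]
  exact (sq_eq_sq₀ (norm_nonneg _) (norm_nonneg _)).1 this

theorem norm_dil (h : ℝ) (x : L) :
    ‖R.act (dil h) x‖ ^ 2 = Real.cosh (2 * h) * ‖x‖ ^ 2 - Real.sinh (2 * h) * ⟪R.S x, x⟫_ℝ := by
  rw [← real_inner_self_eq_norm_sq, ← real_inner_self_eq_norm_sq, Real.cosh_two_mul,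
    Real.sinh_two_mul]
  have e8 : ⟪x, R.S x⟫_ℝ = ⟪R.S x, x⟫_ℝ := (R.Ssymm _ _).symm
  have e3 : ⟪R.S x, R.S x⟫_ℝ = ⟪x, x⟫_ℝ := by rw [R.Ssymm, R.SS]
  simp only [act_apply, dil, Complex.ofReal_re, Complex.ofReal_im, Complex.neg_re, Complex.neg_im,
    zero_smul, add_zero, neg_zero, inner_add_left, inner_add_right,
    real_inner_smul_left, real_inner_smul_right, e8, e3]
  ring

/-- The reflection of the direction `θ`. -/
noncomputable def Sθ (θ : ℝ) : L →L[ℝ] L :=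
  Real.cos (2 * θ) • R.S - Real.sin (2 * θ) • (R.J.comp R.S)

theorem Sθ_apply (θ : ℝ) (x : L) :
    R.Sθ θ x = Real.cos (2 * θ) • R.S x - Real.sin (2 * θ) • R.J (R.S x) := by
  simp [Sθ]

theorem Sθ_symm (θ : ℝ) (x y : L) : ⟪R.Sθ θ x, y⟫_ℝ = ⟪x, R.Sθ θ y⟫_ℝ := by
  simp only [Sθ_apply, inner_sub_left, inner_sub_right, real_inner_smul_left,
    real_inner_smul_right, R.JS_symm, R.Ssymm]

theorem norm_Sθ (θ : ℝ) (x : L) : ‖R.Sθ θ x‖ = ‖x‖ := by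
  have h := Real.cos_sq_add_sin_sq (2 * θ)
  have e3 : ⟪R.S x, R.S x⟫_ℝ = ⟪x, x⟫_ℝ := by rw [R.Ssymm, R.SS]
  have e6 : ⟪R.J (R.S x), R.J (R.S x)⟫_ℝ = ⟪x, x⟫_ℝ := by rw [R.inner_JJ, e3]
  have e7 : ⟪R.J (R.S x), R.S x⟫_ℝ = 0 := R.inner_J_self _
  have e8 : ⟪R.S x, R.J (R.S x)⟫_ℝ = 0 := by rw [real_inner_comm, e7]
  have : ‖R.Sθ θ x‖ ^ 2 = ‖x‖ ^ 2 := by
    rw [← real_inner_self_eq_norm_sq, ← real_inner_self_eq_norm_sq]
    simp only [Sθ_apply, inner_sub_left, inner_sub_right, real_inner_smul_left,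
      real_inner_smul_right, e3, e6, e7, e8]
    linear_combination ⟪x, x⟫_ℝ * h
  exact (sq_eq_sq₀ (norm_nonneg _) (norm_nonneg _)).1 this

theorem norm_dil_rot (h θ : ℝ) (x : L) :
    ‖R.act (mul (dil h) (rot θ)) x‖ ^ 2
      = Real.cosh (2 * h) * ‖x‖ ^ 2 - Real.sinh (2 * h) * ⟪R.Sθ θ x, x⟫_ℝ := by
  rw [act_mul, norm_dil, norm_rot]
  have e5 : ⟪R.S x, R.J x⟫_ℝ = -⟪R.J (R.S x), x⟫_ℝ := by rw [R.Jskew]; ring
  have e6 : ⟪R.J (R.S x), R.J x⟫_ℝ = ⟪R.S x, x⟫_ℝ := R.inner_JJ _ _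
  simp only [act_apply, rot, Complex.exp_ofReal_mul_I_re, Complex.exp_ofReal_mul_I_im,
    Complex.zero_re, Complex.zero_im, zero_smul, add_zero, inner_add_left, inner_add_right,
    inner_sub_left,
    real_inner_smul_left, real_inner_smul_right, map_add, map_smul, R.SJ, inner_neg_left,
    Sθ_apply, e5, e6, Real.cos_two_mul', Real.sin_two_mul, smul_neg]
  ring

theorem sum_inner_four (x y : L) :
    ∑ i ∈ Finset.range 4, ⟪R.Sθ (i * (π / 4)) x, y⟫_ℝ = 0 := by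
  have h0 : (2 : ℝ) * (((0 : ℕ) : ℝ) * (π / 4)) = 0 := by simp
  have h1 : (2 : ℝ) * (((1 : ℕ) : ℝ) * (π / 4)) = π / 2 := by push_cast; ring
  have h2 : (2 : ℝ) * (((2 : ℕ) : ℝ) * (π / 4)) = π := by push_cast; ring
  have h3 : (2 : ℝ) * (((3 : ℕ) : ℝ) * (π / 4)) = π + π / 2 := by push_cast; ring
  simp only [Finset.sum_range_succ, Finset.sum_range_zero, Sθ_apply, h0, h1, h2, h3,
    Real.cos_add, Real.sin_add, inner_sub_left, real_inner_smul_left]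
  simp

/-- Sums over the four directions of a function quadratic in `Sθ`. -/
theorem Sθ_four (f : L → ℝ) (hf : ∀ x, f (-x) = f x) (x : L) :
    ∑ i ∈ Finset.range 4, f (R.Sθ (i * (π / 4)) x) = 2 * (f (R.S x) + f (R.J (R.S x))) := by
  have h0 : (2 : ℝ) * (((0 : ℕ) : ℝ) * (π / 4)) = 0 := by simp
  have h1 : (2 : ℝ) * (((1 : ℕ) : ℝ) * (π / 4)) = π / 2 := by push_cast; ring
  have h2 : (2 : ℝ) * (((2 : ℕ) : ℝ) * (π / 4)) = π := by push_cast; ring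
  have h3 : (2 : ℝ) * (((3 : ℕ) : ℝ) * (π / 4)) = π + π / 2 := by push_cast; ring
  have e0 : R.Sθ ((0 : ℕ) * (π / 4)) x = R.S x := by rw [Sθ_apply, h0]; simp
  have e1 : R.Sθ ((1 : ℕ) * (π / 4)) x = -R.J (R.S x) := by rw [Sθ_apply, h1]; simp
  have e2 : R.Sθ ((2 : ℕ) * (π / 4)) x = -R.S x := by rw [Sθ_apply, h2]; simp
  have e3 : R.Sθ ((3 : ℕ) * (π / 4)) x = R.J (R.S x) := by
    rw [Sθ_apply, h3, Real.cos_add, Real.sin_add]; simp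
  simp only [Finset.sum_range_succ, Finset.sum_range_zero, e0, e1, e2, e3, hf]
  ring

end Refl

end Pool.Agent.Helper83.NS
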