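/-
MP_e98778_an, FULL PROJECT, MODULE H2 (NS), part (a2): the quotient norm
N_g(x) = dist (g x, g E), its Gram form, composition law, and the quadratic estimate.
-/
import Mathlib
import Pool.Agent.Helper83.NS.Act

open MeasureTheory Set
open scoped ComplexConjugate Real InnerProductSpace

namespace Pool.Agent.Helper83.NS

variable {L : Type*} [NormedAddCommGroup L] [InnerProductSpace ℝ L]

/-- The inverse. -/
noncomputable def inv (g : ℂ × ℂ) : ℂ × ℂ := (conj g.1, -g.2)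

theorem inv_mem {g : ℂ × ℂ} (hg : g ∈ SL) : inv g ∈ SL := by
  have : Complex.normSq g.1 - Complex.normSq g.2 = 1 := hg
  simpa [SL, inv] using this

theorem mul_inv' {g : ℂ × ℂ} (hg : g ∈ SL) : mul g (inv g) = (1, 0) := by
  have h : Complex.normSq g.1 - Complex.normSq g.2 = 1 := hg
  ext1
  · simp only [mul, inv, map_neg, mul_neg, Complex.mul_conj]
    rw [← sub_eq_add_neg, ← Complex.ofReal_sub, h]; simp
  · simp [mul, inv]; ring

theorem inv_mul' {g : ℂ × ℂ} (hg : g ∈ SL) : mul (inv g) g = (1, 0) := by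
  have h : Complex.normSq g.1 - Complex.normSq g.2 = 1 := hg
  ext1
  · simp only [mul, inv, neg_mul, Complex.mul_conj, mul_comm (conj g.1)]
    rw [← sub_eq_add_neg, ← Complex.ofReal_sub, h]; simp
  · simp [mul, inv]; ring

/-- Isotropic subspaces. -/
def Iso (R : Refl L) (E : Submodule ℝ L) : Prop := ∀ e ∈ E, ∀ e' ∈ E, ⟪R.J e, e'⟫_ℝ = 0

/-- Closed vectors. -/
def Cl (R : Refl L) (E : Submodule ℝ L) (x : L) : Prop := ∀ e ∈ E, ⟪R.J x, e⟫_ℝ = 0

namespace Refl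

variable (R : Refl L)

theorem act_inv_act {g : ℂ × ℂ} (hg : g ∈ SL) (x : L) : R.act (inv g) (R.act g x) = x := by
  rw [← act_mul, inv_mul' hg, act_one]

theorem act_act_inv {g : ℂ × ℂ} (hg : g ∈ SL) (x : L) : R.act g (R.act (inv g) x) = x := by
  rw [← act_mul, mul_inv' hg, act_one]

/-- `act g` as an equivalence. -/
noncomputable def actE {g : ℂ × ℂ} (hg : g ∈ SL) : L ≃L[ℝ] L :=
  ContinuousLinearEquiv.equivOfInverse (R.act g) (R.act (inv g)) (R.act_inv_act hg)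
    (R.act_act_inv hg)

/-- The image of `E`. -/
noncomputable def im (E : Submodule ℝ L) (g : ℂ × ℂ) : Submodule ℝ L :=
  E.map (R.act g : L →ₗ[ℝ] L)

theorem mem_im {E : Submodule ℝ L} {g : ℂ × ℂ} {x : L} :
    x ∈ R.im E g ↔ ∃ e ∈ E, R.act g e = x := by
  simp [im, Submodule.mem_map]

theorem act_mem_im {E : Submodule ℝ L} {g : ℂ × ℂ} {e : L} (he : e ∈ E) :
    R.act g e ∈ R.im E g := R.mem_im.2 ⟨e, he, rfl⟩

theorem im_im (E : Submodule ℝ L) (g d : ℂ × ℂ) : R.im (R.im E g) d = R.im E (mul d g) := by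
  ext x
  constructor
  · intro h
    obtain ⟨e, he, rfl⟩ := R.mem_im.1 h
    obtain ⟨e', he', rfl⟩ := R.mem_im.1 he
    exact R.mem_im.2 ⟨e', he', R.act_mul d g e'⟩
  · intro h
    obtain ⟨e, he, rfl⟩ := R.mem_im.1 h
    rw [R.act_mul]
    exact R.act_mem_im (R.act_mem_im he)

theorem im_closed {E : Submodule ℝ L} (hE : IsClosed (E : Set L)) {g : ℂ × ℂ} (hg : g ∈ SL) :
    IsClosed ((R.im E g : Submodule ℝ L) : Set L) := by
  have : ((R.im E g : Submodule ℝ L) : Set L) = (R.actE hg) '' (E : Set L) := by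
    ext x
    simp only [SetLike.mem_coe, R.mem_im, mem_image]
    rfl
  rw [this]
  exact ((R.actE hg).toHomeomorph.isClosedMap) _ hE

theorem im_iso {E : Submodule ℝ L} (hE : Iso R E) {g : ℂ × ℂ} (hg : g ∈ SL) :
    Iso R (R.im E g) := by
  intro x hx y hy
  obtain ⟨e, he, rfl⟩ := R.mem_im.1 hx
  obtain ⟨e', he', rfl⟩ := R.mem_im.1 hy
  rw [R.inner_J_act hg]
  exact hE e he e' he'

variable [CompleteSpace L]

/-- The representative of `g x` orthogonal to `g E`. -/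
noncomputable def Q (E : Submodule ℝ L) (g : ℂ × ℂ) : L →L[ℝ] L :=
  ((R.im E g)ᗮ).starProjection.comp (R.act g)

/-- The Gram form. -/
noncomputable def gm (E : Submodule ℝ L) (g : ℂ × ℂ) (x y : L) : ℝ :=
  ⟪R.Q E g x, R.Q E g y⟫_ℝ

theorem Q_mem (E : Submodule ℝ L) (g : ℂ × ℂ) (x : L) : R.Q E g x ∈ (R.im E g)ᗮ := by
  simp only [Q, ContinuousLinearMap.comp_apply]
  exact Submodule.starProjection_apply_mem _ _

theorem Q_orth {E : Submodule ℝ L} (g : ℂ × ℂ) (x : L) {e : L} (he : e ∈ R.im E g) :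
    ⟪R.Q E g x, e⟫_ℝ = 0 :=
  Submodule.inner_left_of_mem_orthogonal he (R.Q_mem E g x)

theorem Q_of_mem {E : Submodule ℝ L} (g : ℂ × ℂ) {e : L} (he : e ∈ E) : R.Q E g e = 0 := by
  simp only [Q, ContinuousLinearMap.comp_apply]
  exact Submodule.starProjection_orthogonal_apply_eq_zero (R.act_mem_im he)

theorem gm_symm (E : Submodule ℝ L) (g : ℂ × ℂ) (x y : L) : R.gm E g x y = R.gm E g y x :=
  real_inner_comm _ _

theorem gm_self (E : Submodule ℝ L) (g : ℂ × ℂ) (x : L) : R.gm E g x x = ‖R.Q E g x‖ ^ 2 :=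
  real_inner_self_eq_norm_sq _

theorem Q_sub {E : Submodule ℝ L} (hE : IsClosed (E : Set L)) {g : ℂ × ℂ} (hg : g ∈ SL) (x : L) :
    ∃ e ∈ E, R.Q E g x = R.act g (x + e) := by
  have : CompleteSpace (R.im E g) := (R.im_closed hE hg).completeSpace_coe
  have h := Submodule.starProjection_orthogonal_val (K := R.im E g) (R.act g x)
  have hm : (R.im E g).starProjection (R.act g x) ∈ R.im E g :=
    Submodule.starProjection_apply_mem _ _
  obtain ⟨e, he, he'⟩ := R.mem_im.1 hm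
  refine ⟨-e, E.neg_mem he, ?_⟩
  simp only [Q, ContinuousLinearMap.comp_apply]
  rw [h, map_add, map_neg, he', sub_eq_add_neg]

/-- The Gram form is smaller than the norm of every representative. -/
theorem gm_le {E : Submodule ℝ L} (g : ℂ × ℂ) (x : L) {e : L} (he : e ∈ E) :
    R.gm E g x x ≤ ‖R.act g (x + e)‖ ^ 2 := by
  rw [gm_self]
  have h1 : R.Q E g x = R.Q E g (x + e) := by
    rw [map_add, R.Q_of_mem g he, add_zero]
  rw [h1]
  have h2 : ‖R.Q E g (x + e)‖ ≤ ‖R.act g (x + e)‖ := by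
    simp only [Q, ContinuousLinearMap.comp_apply]
    exact Submodule.norm_starProjection_apply_le _ _
  exact pow_le_pow_left₀ (norm_nonneg _) h2 2

theorem exists_gm {E : Submodule ℝ L} (hE : IsClosed (E : Set L)) {g : ℂ × ℂ} (hg : g ∈ SL)
    (x : L) : ∃ e ∈ E, R.gm E g x x = ‖R.act g (x + e)‖ ^ 2 := by
  obtain ⟨e, he, h⟩ := R.Q_sub hE hg x
  exact ⟨e, he, by rw [gm_self, h]⟩

theorem Q_im_im (E : Submodule ℝ L) (g d : ℂ × ℂ) (y : L) :
    (R.im (R.im E g) d)ᗮ.starProjection y = (R.im E (mul d g))ᗮ.starProjection y := by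
  have aux : ∀ K K' : Submodule ℝ L, K = K' → Kᗮ.starProjection y = K'ᗮ.starProjection y := by
    intro K K' h; subst h; rfl
  exact aux _ _ (R.im_im E g d)

/-- The composition law. -/
theorem Q_mul {E : Submodule ℝ L} (hE : IsClosed (E : Set L)) {g : ℂ × ℂ} (hg : g ∈ SL)
    (d : ℂ × ℂ) (x : L) : R.Q (R.im E g) d (R.Q E g x) = R.Q E (mul d g) x := by
  obtain ⟨e, he, h⟩ := R.Q_sub hE hg x
  rw [h]
  simp only [Q, ContinuousLinearMap.comp_apply]
  rw [R.Q_im_im, ← R.act_mul, map_add]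
  rw [map_add, Submodule.starProjection_orthogonal_apply_eq_zero (R.act_mem_im he), add_zero]

theorem gm_mul {E : Submodule ℝ L} (hE : IsClosed (E : Set L)) {g : ℂ × ℂ} (hg : g ∈ SL)
    (d : ℂ × ℂ) (x y : L) :
    R.gm E (mul d g) x y = R.gm (R.im E g) d (R.Q E g x) (R.Q E g y) := by
  simp only [gm, R.Q_mul hE hg]

theorem Q_cl {E : Submodule ℝ L} (hE : IsClosed (E : Set L)) (hi : Iso R E) {g : ℂ × ℂ}
    (hg : g ∈ SL) {x : L} (hx : Cl R E x) : Cl R (R.im E g) (R.Q E g x) := by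
  intro y hy
  obtain ⟨e, he, h⟩ := R.Q_sub hE hg x
  obtain ⟨e', he', rfl⟩ := R.mem_im.1 hy
  rw [h, R.inner_J_act hg, map_add, inner_add_left, hx e' he', hi e he e' he', add_zero]

/-- The upper estimate. -/
theorem gm_upper {E : Submodule ℝ L} (h θ : ℝ) (x : L) :
    R.gm E (mul (dil h) (rot θ)) x x
      ≤ Real.cosh (2 * h) * ‖x‖ ^ 2 - Real.sinh (2 * h) * ⟪R.Sθ θ x, x⟫_ℝ := by
  have := R.gm_le (mul (dil h) (rot θ)) x E.zero_mem
  rwa [add_zero, norm_dil_rot] at this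

/-- The lower estimate. -/
theorem gm_lower {E : Submodule ℝ L} (hE : IsClosed (E : Set L)) {h : ℝ} (hh : 0 ≤ h) (θ : ℝ)
    {x : L} (hx : ∀ e ∈ E, ⟪x, e⟫_ℝ = 0) :
    Real.cosh (2 * h) * ‖x‖ ^ 2 - Real.sinh (2 * h) * ⟪R.Sθ θ x, x⟫_ℝ
        - Real.exp (2 * h) * Real.sinh (2 * h) ^ 2 * ‖Eᗮᗮ.starProjection (R.Sθ θ x)‖ ^ 2
      ≤ R.gm E (mul (dil h) (rot θ)) x x := by
  obtain ⟨e, he, hg⟩ := R.exists_gm hE (mul_mem (dil_mem h) (rot_mem θ)) x
  rw [hg, norm_dil_rot]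
  set s := Real.sinh (2 * h) with hs
  set c := Real.cosh (2 * h) with hc
  set a := ‖Eᗮᗮ.starProjection (R.Sθ θ x)‖ with ha
  have hs0 : 0 ≤ s := Real.sinh_nonneg_iff.2 (by linarith)
  have hcs : c - s = Real.exp (-(2 * h)) := by rw [hc, hs, Real.cosh_sub_sinh]
  have he2 : Real.exp (2 * h) * (c - s) = 1 := by rw [hcs, ← Real.exp_add]; simp
  have hexp : 0 < Real.exp (2 * h) := Real.exp_pos _
  have n1 : ‖x + e‖ ^ 2 = ‖x‖ ^ 2 + ‖e‖ ^ 2 := by
    rw [← real_inner_self_eq_norm_sq, ← real_inner_self_eq_norm_sq, ← real_inner_self_eq_norm_sq,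
      inner_add_left, inner_add_right, inner_add_right, hx e he, real_inner_comm x e, hx e he]
    ring
  have n2 : ⟪R.Sθ θ (x + e), x + e⟫_ℝ
      = ⟪R.Sθ θ x, x⟫_ℝ + 2 * ⟪R.Sθ θ x, e⟫_ℝ + ⟪R.Sθ θ e, e⟫_ℝ := by
    rw [map_add, inner_add_left, inner_add_right, inner_add_right]
    have : ⟪R.Sθ θ e, x⟫_ℝ = ⟪R.Sθ θ x, e⟫_ℝ := by rw [R.Sθ_symm, real_inner_comm]
    rw [this]; ring
  have n3 : ⟪R.Sθ θ e, e⟫_ℝ ≤ ‖e‖ ^ 2 := by
    refine (real_inner_le_norm _ _).trans ?_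
    rw [R.norm_Sθ, sq]
  have n4 : ⟪R.Sθ θ x, e⟫_ℝ ≤ a * ‖e‖ := by
    have he' : Eᗮᗮ.starProjection e = e :=
      Submodule.starProjection_eq_self_iff.2 (Submodule.le_orthogonal_orthogonal E he)
    have : ⟪R.Sθ θ x, e⟫_ℝ = ⟪Eᗮᗮ.starProjection (R.Sθ θ x), e⟫_ℝ := by
      rw [Submodule.inner_starProjection_left_eq_right, he']
    rw [this]
    exact real_inner_le_norm _ _
  rw [n1, n2]
  have key : 0 ≤ (c - s) * ‖e‖ ^ 2 - 2 * s * (a * ‖e‖) + Real.exp (2 * h) * s ^ 2 * a ^ 2 := by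
    have : Real.exp (2 * h) * ((c - s) * ‖e‖ ^ 2 - 2 * s * (a * ‖e‖)
        + Real.exp (2 * h) * s ^ 2 * a ^ 2) = (‖e‖ - Real.exp (2 * h) * s * a) ^ 2 := by
      linear_combination ‖e‖ ^ 2 * he2
    by_contra hneg
    push Not at hneg
    have h1 := mul_neg_of_pos_of_neg hexp hneg
    rw [this] at h1
    exact absurd h1 (not_lt.2 (sq_nonneg _))
  nlinarith [mul_le_mul_of_nonneg_left n3 hs0, mul_le_mul_of_nonneg_left n4 hs0]

end Refl

end Pool.Agent.Helper83.NS
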