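/-
MP_e98778_an, FULL PROJECT, MODULE H2 (NS), part (a3): the trace inequality.
-/
import Mathlib
import Pool.Agent.Helper83.NS.Proj

open MeasureTheory Set
open scoped ComplexConjugate Real InnerProductSpace

namespace Pool.Agent.Helper83.NS

variable {L : Type*} [NormedAddCommGroup L] [InnerProductSpace ℝ L]

/-- Harmonic vectors. -/
def Ha (R : Refl L) (E : Submodule ℝ L) (x : L) : Prop := (∀ e ∈ E, ⟪x, e⟫_ℝ = 0) ∧ Cl R E x

/-- Orthonormal families in `L × ℝ`. -/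
def ON {k : ℕ} (m : Fin k → L × ℝ) : Prop :=
  ∀ i j, ⟪(m i).1, (m j).1⟫_ℝ + (m i).2 * (m j).2 = if i = j then 1 else 0

theorem ON.norm_le {k : ℕ} {m : Fin k → L × ℝ} (hm : ON m) (i : Fin k) : ‖(m i).1‖ ≤ 1 := by
  have h := hm i i
  simp only [if_true] at h
  rw [real_inner_self_eq_norm_sq] at h
  nlinarith [mul_self_nonneg (m i).2, norm_nonneg (m i).1]

/-- The trace inequality. -/
theorem trace_le (R : Refl L) {k : ℕ} {m : Fin k → L × ℝ} (hm : ON m) (b : Fin k → L)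
    (hb : ∀ i j, ⟪b j, (m i).1⟫_ℝ = ⟪b i, (m j).1⟫_ℝ) :
    (∑ j, ⟪R.J (b j), (m j).1⟫_ℝ) ^ 2
      ≤ k * (∑ j, ‖b j‖ ^ 2 - ∑ j, ∑ i, ⟪b j, (m i).1⟫_ℝ ^ 2) := by
  classical
  set β : Fin k → Fin k → ℝ := fun i j => ⟪b j, (m i).1⟫_ℝ with hβ
  have hβs : ∀ i j, β i j = β j i := hb
  set n : Fin k → L := fun j => b j - ∑ i, β i j • (m i).1 with hn
  have hnn : ∀ j, ‖n j‖ ^ 2 ≤ ‖b j‖ ^ 2 - ∑ i, β i j ^ 2 := by
    intro j
    have e1 : ‖n j‖ ^ 2 + (∑ i, β i j * (m i).2) ^ 2 = ‖b j‖ ^ 2 - ∑ i, β i j ^ 2 := by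
      have a1 : ‖n j‖ ^ 2 = ‖b j‖ ^ 2 - 2 * ∑ i, β i j ^ 2
          + ∑ i, ∑ l, β i j * β l j * ⟪(m i).1, (m l).1⟫_ℝ := by
        simp only [hn]
        rw [@norm_sub_sq_real, inner_sum, ← real_inner_self_eq_norm_sq (∑ i, β i j • (m i).1),
          sum_inner]
        simp only [inner_sum, real_inner_smul_left, real_inner_smul_right]
        congr 1
        · congr 2
          apply Finset.sum_congr rfl
          intro i _
          simp only [hβ]; ring
        · apply Finset.sum_congr rfl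
          intro i _
          apply Finset.sum_congr rfl
          intro l _
          ring
      have a2 : (∑ i, β i j * (m i).2) ^ 2
          = ∑ i, ∑ l, β i j * β l j * ((m i).2 * (m l).2) := by
        rw [sq, Finset.sum_mul_sum]
        apply Finset.sum_congr rfl
        intro i _
        apply Finset.sum_congr rfl
        intro l _
        ring
      have a3 : (∑ i, ∑ l, β i j * β l j * ⟪(m i).1, (m l).1⟫_ℝ)
          + ∑ i, ∑ l, β i j * β l j * ((m i).2 * (m l).2) = ∑ i, β i j ^ 2 := by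
        rw [← Finset.sum_add_distrib]
        apply Finset.sum_congr rfl
        intro i _
        rw [← Finset.sum_add_distrib]
        have : ∀ l, β i j * β l j * ⟪(m i).1, (m l).1⟫_ℝ + β i j * β l j * ((m i).2 * (m l).2)
            = β i j * β l j * (if i = l then 1 else 0) := by
          intro l
          rw [← hm i l]; ring
        simp only [this]
        simp [sq]
      rw [a1, a2]
      linarith
    nlinarith [sq_nonneg (∑ i, β i j * (m i).2)]
  have hanti : ∑ j, ∑ i, β i j * ⟪R.J (m i).1, (m j).1⟫_ℝ = 0 := by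
    have h1 : ∑ j, ∑ i, β i j * ⟪R.J (m i).1, (m j).1⟫_ℝ
        = ∑ j, ∑ i, β j i * ⟪R.J (m j).1, (m i).1⟫_ℝ := Finset.sum_comm
    have h2 : ∑ j, ∑ i, β j i * ⟪R.J (m j).1, (m i).1⟫_ℝ
        = -∑ j, ∑ i, β i j * ⟪R.J (m i).1, (m j).1⟫_ℝ := by
      rw [← Finset.sum_neg_distrib]
      apply Finset.sum_congr rfl
      intro j _
      rw [← Finset.sum_neg_distrib]
      apply Finset.sum_congr rfl
      intro i _
      rw [hβs j i, R.Jskew (m j).1 (m i).1, real_inner_comm (R.J (m i).1) (m j).1]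
      ring
    linarith
  have hsum : ∑ j, ⟪R.J (b j), (m j).1⟫_ℝ = ∑ j, ⟪R.J (n j), (m j).1⟫_ℝ := by
    have : ∀ j, ⟪R.J (n j), (m j).1⟫_ℝ
        = ⟪R.J (b j), (m j).1⟫_ℝ - ∑ i, β i j * ⟪R.J (m i).1, (m j).1⟫_ℝ := by
      intro j
      simp only [hn, map_sub, map_sum, map_smul, inner_sub_left, sum_inner, real_inner_smul_left]
    simp only [this, Finset.sum_sub_distrib, hanti, sub_zero]
  have habs : |∑ j, ⟪R.J (b j), (m j).1⟫_ℝ| ≤ ∑ j, ‖n j‖ := by
    rw [hsum]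
    refine (Finset.abs_sum_le_sum_abs _ _).trans (Finset.sum_le_sum fun j _ => ?_)
    refine (abs_real_inner_le_norm _ _).trans ?_
    rw [R.norm_J]
    have := hm.norm_le j
    nlinarith [norm_nonneg (n j)]
  have hcs : (∑ j, ‖n j‖) ^ 2 ≤ k * ∑ j, ‖n j‖ ^ 2 := by
    have := sq_sum_le_card_mul_sum_sq (s := (Finset.univ : Finset (Fin k))) (f := fun j => ‖n j‖)
    simpa using this
  calc (∑ j, ⟪R.J (b j), (m j).1⟫_ℝ) ^ 2 ≤ (∑ j, ‖n j‖) ^ 2 := by
        rw [← sq_abs]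
        exact pow_le_pow_left₀ (abs_nonneg _) habs 2
    _ ≤ k * ∑ j, ‖n j‖ ^ 2 := hcs
    _ ≤ k * (∑ j, (‖b j‖ ^ 2 - ∑ i, β i j ^ 2)) := by
        apply mul_le_mul_of_nonneg_left _ (Nat.cast_nonneg k)
        exact Finset.sum_le_sum fun j _ => hnn j
    _ = _ := by rw [Finset.sum_sub_distrib]

namespace Refl

variable (R : Refl L) [CompleteSpace L]

/-- The harmonic projection. -/
noncomputable def PH (E : Submodule ℝ L) (y : L) : L :=
  y - Eᗮᗮ.starProjection y + R.J (Eᗮᗮ.starProjection (R.J y))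

theorem proj_mem {E : Submodule ℝ L} (hE : IsClosed (E : Set L)) (y : L) :
    Eᗮᗮ.starProjection y ∈ E := by
  have : CompleteSpace E := hE.completeSpace_coe
  have h : Eᗮᗮ = E := Submodule.orthogonal_orthogonal E
  have h2 := Submodule.starProjection_apply_mem (Eᗮᗮ) y
  exact h.le h2

theorem PH_inner {E : Submodule ℝ L} (hE : IsClosed (E : Set L)) (y : L) {x : L}
    (hx : Ha R E x) : ⟪R.PH E y, x⟫_ℝ = ⟪y, x⟫_ℝ := by
  have h1 : ⟪Eᗮᗮ.starProjection y, x⟫_ℝ = 0 := by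
    rw [real_inner_comm]; exact hx.1 _ (proj_mem hE y)
  have h2 : ⟪R.J (Eᗮᗮ.starProjection (R.J y)), x⟫_ℝ = 0 := by
    rw [R.Jskew, real_inner_comm, hx.2 _ (proj_mem hE _), neg_zero]
  unfold PH
  rw [inner_add_left, inner_sub_left, h1, h2]; ring

theorem PH_J (E : Submodule ℝ L) (y : L) : R.PH E (R.J y) = R.J (R.PH E y) := by
  simp only [PH, map_add, map_sub, R.JJ, map_neg]
  abel

theorem PH_norm {E : Submodule ℝ L} (hE : IsClosed (E : Set L)) (hi : Iso R E) (y : L) :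
    ‖R.PH E y‖ ^ 2 = ‖y‖ ^ 2 - ‖Eᗮᗮ.starProjection y‖ ^ 2
      - ‖Eᗮᗮ.starProjection (R.J y)‖ ^ 2 := by
  set P := Eᗮᗮ.starProjection with hP
  have hself : ∀ z, ⟪z, P z⟫_ℝ = ‖P z‖ ^ 2 := by
    intro z
    have h1 : ⟪P z, P z⟫_ℝ = ⟪z, P (P z)⟫_ℝ := by
      rw [hP, Submodule.inner_starProjection_left_eq_right]
    have h2 : P (P z) = P z :=
      Submodule.starProjection_eq_self_iff.2 (Submodule.starProjection_apply_mem _ _)
    rw [h2] at h1
    rw [← h1, real_inner_self_eq_norm_sq]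
  have h1 := hself y
  have h2 := hself (R.J y)
  have h3 : ⟪y, R.J (P (R.J y))⟫_ℝ = -‖P (R.J y)‖ ^ 2 := by
    rw [← h2, R.Jskew]; ring
  have h4 : ⟪P y, R.J (P (R.J y))⟫_ℝ = 0 := by
    have := hi _ (proj_mem hE (R.J y)) _ (proj_mem hE y)
    rw [real_inner_comm]; exact this
  have h5 : ‖R.J (P (R.J y))‖ = ‖P (R.J y)‖ := R.norm_J _
  unfold PH
  rw [@norm_add_sq_real, @norm_sub_sq_real, inner_sub_left, h1, h3, h4, h5]
  ring

end Refl

end Pool.Agent.Helper83.NS
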