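/-
MP_e98778_an, FULL PROJECT, MODULE H2 (NS), part (a5): the local inequality for an orthonormal
family of harmonic vectors.
-/
import Mathlib
import Pool.Agent.Helper83.NS.Trace
import Pool.Agent.Helper83.NS.Det

open MeasureTheory Set
open scoped ComplexConjugate Real InnerProductSpace

namespace Pool.Agent.Helper83.NS

/-! ### Elementary numbers -/

theorem sinh_upper {h : ℝ} (h0 : 0 ≤ h) (h1 : h ≤ 1 / 2) : Real.sinh (2 * h) ≤ 2 * h + 2 * h ^ 3 := by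
  have hx : |2 * h| ≤ 1 := by rw [abs_of_nonneg (by linarith)]; linarith
  have hx' : |-(2 * h)| ≤ 1 := by rw [abs_neg]; exact hx
  have a := Real.exp_bound hx (n := 3) (by norm_num)
  have b := Real.exp_bound hx' (n := 3) (by norm_num)
  have a1 := (abs_le.1 a).2
  have b1 := (abs_le.1 b).1
  simp only [Finset.sum_range_succ, Finset.sum_range_zero, abs_neg] at a1 b1
  rw [abs_of_nonneg (by linarith : (0 : ℝ) ≤ 2 * h)] at a1 b1
  norm_num [Nat.factorial] at a1 b1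
  rw [Real.sinh_eq]
  nlinarith [pow_nonneg h0 3]

theorem exp_upper {h : ℝ} (h0 : 0 ≤ h) (h1 : h ≤ 1 / 2) : Real.exp (2 * h) ≤ 1 + 4 * h := by
  have hx : |2 * h| ≤ 1 := by rw [abs_of_nonneg (by linarith)]; linarith
  have a := (abs_le.1 (Real.abs_exp_sub_one_sub_id_le hx)).2
  nlinarith

theorem cosh_lower {h : ℝ} (h0 : 0 ≤ h) : 1 + 2 * h ^ 2 ≤ Real.cosh (2 * h) := by
  have h5 : h ≤ Real.sinh h := Real.self_le_sinh_iff.2 h0
  have h6 := Real.cosh_sq h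
  rw [Real.cosh_two_mul]
  nlinarith

theorem exp_three {y : ℝ} (hy : |y| ≤ 1) : Real.exp y ≤ 1 + y + y ^ 2 / 2 + |y| ^ 3 := by
  have a := (abs_le.1 (Real.exp_bound hy (n := 3) (by norm_num))).2
  simp only [Finset.sum_range_succ, Finset.sum_range_zero] at a
  norm_num [Nat.factorial] at a
  nlinarith [pow_nonneg (abs_nonneg y) 3]

theorem cosh_sub_le {h : ℝ} (h0 : 0 ≤ h) :
    Real.cosh (2 * h) - 1 ≤ Real.exp (2 * h) * Real.sinh (2 * h) ^ 2 := by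
  have h1 : 1 ≤ Real.exp (2 * h) := Real.one_le_exp (by linarith)
  have h2 : Real.cosh (2 * h) - 1 = 2 * Real.sinh h ^ 2 := by
    rw [Real.cosh_two_mul, Real.cosh_sq]; ring
  have h3 : Real.sinh (2 * h) ^ 2 = 4 * Real.sinh h ^ 2 * Real.cosh h ^ 2 := by
    rw [Real.sinh_two_mul]; ring
  have h4 : 1 ≤ Real.cosh h ^ 2 := by nlinarith [Real.one_le_cosh h]
  have h5 := sq_nonneg (Real.sinh h)
  rw [h2]
  have h6 : 2 * Real.sinh h ^ 2 ≤ Real.sinh (2 * h) ^ 2 := by rw [h3]; nlinarith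
  nlinarith [sq_nonneg (Real.sinh (2 * h))]

variable {L : Type*} [NormedAddCommGroup L] [InnerProductSpace ℝ L]

theorem Ha.add {R : Refl L} {E : Submodule ℝ L} {x y : L} (hx : Ha R E x) (hy : Ha R E y) :
    Ha R E (x + y) := by
  refine ⟨fun e he => ?_, fun e he => ?_⟩
  · rw [inner_add_left, hx.1 e he, hy.1 e he, add_zero]
  · rw [map_add, inner_add_left, hx.2 e he, hy.2 e he, add_zero]

theorem Ha.sub {R : Refl L} {E : Submodule ℝ L} {x y : L} (hx : Ha R E x) (hy : Ha R E y) :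
    Ha R E (x - y) := by
  refine ⟨fun e he => ?_, fun e he => ?_⟩
  · rw [inner_sub_left, hx.1 e he, hy.1 e he, sub_zero]
  · rw [map_sub, inner_sub_left, hx.2 e he, hy.2 e he, sub_zero]

variable [CompleteSpace L]

/-- The matrix `X` of the direction `θ`. -/
noncomputable def XM (R : Refl L) (E : Submodule ℝ L) {k : ℕ} (m : Fin k → L × ℝ) (h θ : ℝ) :
    Matrix (Fin k) (Fin k) ℝ :=
  Matrix.of fun i j => R.gm E (mul (dil h) (rot θ)) (m i).1 (m j).1 - ⟪(m i).1, (m j).1⟫_ℝ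

theorem Refl.gm_add_left (R : Refl L) (E : Submodule ℝ L) (g : ℂ × ℂ) (x y z : L) :
    R.gm E g (x + y) z = R.gm E g x z + R.gm E g y z := by
  simp [Refl.gm, inner_add_left]

theorem Refl.gm_add_right (R : Refl L) (E : Submodule ℝ L) (g : ℂ × ℂ) (x y z : L) :
    R.gm E g x (y + z) = R.gm E g x y + R.gm E g x z := by
  simp [Refl.gm, inner_add_right]

theorem Refl.gm_sub_left (R : Refl L) (E : Submodule ℝ L) (g : ℂ × ℂ) (x y z : L) :
    R.gm E g (x - y) z = R.gm E g x z - R.gm E g y z := by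
  simp [Refl.gm, inner_sub_left]

theorem Refl.gm_sub_right (R : Refl L) (E : Submodule ℝ L) (g : ℂ × ℂ) (x y z : L) :
    R.gm E g x (y - z) = R.gm E g x y - R.gm E g x z := by
  simp [Refl.gm, inner_sub_right]

theorem rem_le (R : Refl L) {E : Submodule ℝ L} (hE : IsClosed (E : Set L)) {h : ℝ} (hh : 0 ≤ h)
    (θ : ℝ) {x y : L} (hx : Ha R E x) (hy : Ha R E y) (hx1 : ‖x‖ ≤ 1) (hy1 : ‖y‖ ≤ 1) :
    |R.gm E (mul (dil h) (rot θ)) x y - ⟪x, y⟫_ℝ + Real.sinh (2 * h) * ⟪R.Sθ θ x, y⟫_ℝ|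
      ≤ Real.exp (2 * h) * Real.sinh (2 * h) ^ 2 := by
  set d := mul (dil h) (rot θ) with hd
  set s := Real.sinh (2 * h) with hs
  set ρ := Real.exp (2 * h) * s ^ 2 with hρ
  have hρ0 : 0 ≤ ρ := by positivity
  have hc := cosh_sub_le hh
  rw [← hs, ← hρ] at hc
  have hc1 : 1 ≤ Real.cosh (2 * h) := Real.one_le_cosh _
  have key : ∀ z : L, Ha R E z →
      |R.gm E d z z - ⟪z, z⟫_ℝ + s * ⟪R.Sθ θ z, z⟫_ℝ| ≤ ρ * ‖z‖ ^ 2 := by
    intro z hz
    have u := R.gm_upper (E := E) h θ z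
    have l := R.gm_lower hE hh θ hz.1
    rw [← hd, ← hs] at u l
    have hp : ‖Eᗮᗮ.starProjection (R.Sθ θ z)‖ ^ 2 ≤ ‖z‖ ^ 2 := by
      have := Submodule.norm_starProjection_apply_le (Eᗮᗮ) (R.Sθ θ z)
      rw [R.norm_Sθ] at this
      exact pow_le_pow_left₀ (norm_nonneg _) this 2
    rw [real_inner_self_eq_norm_sq, abs_le]
    constructor
    · have := mul_le_mul_of_nonneg_left hp hρ0
      nlinarith [sq_nonneg ‖z‖]
    · nlinarith [sq_nonneg ‖z‖]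
  have h1 := abs_le.1 (key _ (hx.add hy))
  have h2 := abs_le.1 (key _ (hx.sub hy))
  have n1 : ‖x + y‖ ^ 2 + ‖x - y‖ ^ 2 ≤ 4 := by
    have := parallelogram_law_with_norm ℝ x y
    nlinarith [norm_nonneg x, norm_nonneg y]
  have e1 : R.gm E d (x + y) (x + y) - R.gm E d (x - y) (x - y) = 4 * R.gm E d x y := by
    rw [R.gm_add_left, R.gm_add_right, R.gm_add_right, R.gm_sub_left, R.gm_sub_right,
      R.gm_sub_right, R.gm_symm E d y x]
    ring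
  have e2 : ⟪x + y, x + y⟫_ℝ - ⟪x - y, x - y⟫_ℝ = 4 * ⟪x, y⟫_ℝ := by
    simp only [inner_add_left, inner_add_right, inner_sub_left, inner_sub_right,
      real_inner_comm x y]
    ring
  have e3 : ⟪R.Sθ θ (x + y), x + y⟫_ℝ - ⟪R.Sθ θ (x - y), x - y⟫_ℝ = 4 * ⟪R.Sθ θ x, y⟫_ℝ := by
    have : ⟪R.Sθ θ y, x⟫_ℝ = ⟪R.Sθ θ x, y⟫_ℝ := by rw [R.Sθ_symm, real_inner_comm]
    simp only [map_add, map_sub, inner_add_left, inner_add_right, inner_sub_left, inner_sub_right,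
      this]
    ring
  have e4 : s * ⟪R.Sθ θ (x + y), x + y⟫_ℝ - s * ⟪R.Sθ θ (x - y), x - y⟫_ℝ
      = 4 * (s * ⟪R.Sθ θ x, y⟫_ℝ) := by
    rw [← mul_sub, e3]; ring
  have n2 : ρ * ‖x + y‖ ^ 2 + ρ * ‖x - y‖ ^ 2 ≤ ρ * 4 := by
    rw [← mul_add]; exact mul_le_mul_of_nonneg_left n1 hρ0
  rw [abs_le]
  constructor
  · linarith [h1.1, h2.2]
  · linarith [h1.2, h2.1]

/-- Lower bound for the logarithm of the Gram determinant in the direction `θ`. -/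
theorem log_det_dir (R : Refl L) {E : Submodule ℝ L} (hE : IsClosed (E : Set L)) {k : ℕ}
    (hk : 1 ≤ k) {m : Fin k → L × ℝ} (hm : ON m) (hH : ∀ i, Ha R E (m i).1) {h : ℝ} (hh : 0 < h)
    (hh1 : h ≤ 1 / (100 * k)) (θ : ℝ) :
    0 < (1 + XM R E m h θ).det ∧
    2 * h ^ 2 * (∑ i, ‖(m i).1‖ ^ 2) - 2 * h * (∑ i, ⟪R.Sθ θ (m i).1, (m i).1⟫_ℝ)
      - 4 * h ^ 2 * (∑ i, ‖Eᗮᗮ.starProjection (R.Sθ θ (m i).1)‖ ^ 2)
      - 2 * h ^ 2 * (∑ i, ∑ j, ⟪R.Sθ θ (m i).1, (m j).1⟫_ℝ ^ 2) - 5000 * k ^ 3 * h ^ 3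
      ≤ Real.log (1 + XM R E m h θ).det := by
  have hk' : (1 : ℝ) ≤ k := by exact_mod_cast hk
  have hkh : h * k ≤ 1 / 100 := by
    rw [le_div_iff₀ (by positivity)] at hh1
    linarith
  have hh2 : h ≤ 1 / 100 := (le_mul_of_one_le_right hh.le hk').trans hkh
  set s := Real.sinh (2 * h) with hs
  set ρ := Real.exp (2 * h) * s ^ 2 with hρ
  have hs1 : 2 * h ≤ s := Real.self_le_sinh_iff.2 (by linarith)
  have hs2 : s ≤ 2 * h + 2 * h ^ 3 := sinh_upper hh.le (by linarith)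
  have he := exp_upper hh.le (by linarith : h ≤ 1 / 2)
  have hc := cosh_lower hh.le
  have hρ0 : 0 ≤ ρ := by positivity
  have hh3 : h ^ 2 ≤ h / 100 := by
    have := mul_le_mul_of_nonneg_left hh2 hh.le
    linarith
  have hh4 : h ^ 3 ≤ h ^ 2 / 100 := by
    have := mul_le_mul_of_nonneg_left hh2 (sq_nonneg h)
    linarith
  have hp3 : 0 < h ^ 3 := pow_pos hh 3
  have hh4' : h ^ 4 ≤ h ^ 3 / 100 := by
    have := mul_le_mul_of_nonneg_left hh2 hp3.le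
    linarith
  have hh6' : h ^ 6 ≤ h ^ 3 / 100 := by
    have h1 : h ^ 3 ≤ 1 / 100 := by linarith
    have := mul_le_mul_of_nonneg_left h1 hp3.le
    linarith
  have hs3 : s ≤ 5 / 2 * h := by linarith
  have hs4 : s ^ 2 ≤ 4 * h ^ 2 + 5 * h ^ 3 := by
    have : s ^ 2 ≤ (2 * h + 2 * h ^ 3) ^ 2 := pow_le_pow_left₀ (by linarith) hs2 2
    linarith
  have hρ1 : ρ ≤ 4 * h ^ 2 + 34 * h ^ 3 := by
    have : ρ ≤ (1 + 4 * h) * (4 * h ^ 2 + 5 * h ^ 3) := by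
      apply mul_le_mul he hs4 (sq_nonneg _) (by linarith)
    linarith
  have hρ2 : ρ ≤ 5 * h ^ 2 := by linarith
  set X := XM R E m h θ with hX
  have hXs : ∀ i j, X i j = X j i := by
    intro i j
    simp only [hX, XM, Matrix.of_apply]
    rw [R.gm_symm, real_inner_comm]
  set σ : Fin k → Fin k → ℝ := fun i j => ⟪R.Sθ θ (m i).1, (m j).1⟫_ℝ with hσ
  have hσ1 : ∀ i j, |σ i j| ≤ 1 := by
    intro i j
    refine (abs_real_inner_le_norm _ _).trans ?_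
    rw [R.norm_Sθ]
    exact mul_le_one₀ (hm.norm_le i) (norm_nonneg _) (hm.norm_le j)
  have hXσ : ∀ i j, |X i j + s * σ i j| ≤ ρ := by
    intro i j
    have := rem_le R hE hh.le θ (hH i) (hH j) (hm.norm_le i) (hm.norm_le j)
    simpa only [hX, XM, Matrix.of_apply] using this
  have hs0 : 0 ≤ s := by linarith
  have hXb : ∀ i j, |X i j| ≤ 3 * h := by
    intro i j
    have h1 := abs_le.1 (hXσ i j)
    have h2 := abs_le.1 (hσ1 i j)
    have h3 : s * σ i j ≤ s * 1 := mul_le_mul_of_nonneg_left h2.2 hs0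
    have h4 : s * -1 ≤ s * σ i j := mul_le_mul_of_nonneg_left h2.1 hs0
    rw [abs_le]
    constructor <;> linarith [h1.1, h1.2]
  obtain ⟨hdet, hlog⟩ := log_det_ge hXs (by linarith : (0 : ℝ) ≤ 3 * h) hXb (by linarith)
  refine ⟨hdet, le_trans ?_ hlog⟩
  -- the trace
  have htr : ∀ i, 2 * h ^ 2 * ‖(m i).1‖ ^ 2 - 2 * h * σ i i - 2 * h ^ 3
      - 4 * h ^ 2 * ‖Eᗮᗮ.starProjection (R.Sθ θ (m i).1)‖ ^ 2 - 34 * h ^ 3 ≤ X i i := by
    intro i
    have l := R.gm_lower hE hh.le θ (hH i).1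
    have e : X i i = R.gm E (mul (dil h) (rot θ)) (m i).1 (m i).1 - ‖(m i).1‖ ^ 2 := by
      simp only [hX, XM, Matrix.of_apply]
      rw [real_inner_self_eq_norm_sq]
    rw [e]
    set pp := ‖Eᗮᗮ.starProjection (R.Sθ θ (m i).1)‖ ^ 2 with hpp
    have hp0 : 0 ≤ pp := sq_nonneg _
    have hp : pp ≤ 1 := by
      have h1 := Submodule.norm_starProjection_apply_le (Eᗮᗮ) (R.Sθ θ (m i).1)
      rw [R.norm_Sθ] at h1
      exact pow_le_one₀ (norm_nonneg _) (h1.trans (hm.norm_le i))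
    rw [← hs, ← hρ] at l
    have h1 : (Real.cosh (2 * h) - 1) * ‖(m i).1‖ ^ 2 ≥ 2 * h ^ 2 * ‖(m i).1‖ ^ 2 := by
      apply mul_le_mul_of_nonneg_right _ (sq_nonneg _)
      linarith
    have h2 : s * σ i i ≤ 2 * h * σ i i + 2 * h ^ 3 := by
      have h5 := (abs_le.1 (hσ1 i i)).2
      have h6 : (s - 2 * h) * σ i i ≤ (s - 2 * h) * 1 :=
        mul_le_mul_of_nonneg_left h5 (by linarith)
      linarith
    have h3 : ρ * pp ≤ 4 * h ^ 2 * pp + 34 * h ^ 3 := by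
      have h5 : ρ * pp ≤ (4 * h ^ 2 + 34 * h ^ 3) * pp := mul_le_mul_of_nonneg_right hρ1 hp0
      have h6 : h ^ 3 * pp ≤ h ^ 3 * 1 := mul_le_mul_of_nonneg_left hp hp3.le
      linarith
    have h4 : ⟪R.Sθ θ (m i).1, (m i).1⟫_ℝ = σ i i := rfl
    rw [h4] at l
    linarith
  have htr2 : 2 * h ^ 2 * (∑ i, ‖(m i).1‖ ^ 2) - 2 * h * (∑ i, σ i i)
      - 4 * h ^ 2 * (∑ i, ‖Eᗮᗮ.starProjection (R.Sθ θ (m i).1)‖ ^ 2) - 36 * h ^ 3 * k
      ≤ ∑ i, X i i := by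
    refine le_trans (le_of_eq ?_) (Finset.sum_le_sum fun i _ => htr i)
    simp only [Finset.sum_sub_distrib, ← Finset.mul_sum, Finset.sum_const, Finset.card_univ,
      Fintype.card_fin, nsmul_eq_mul]
    ring
  -- the squares
  have hsq : ∀ i j, X i j ^ 2 ≤ 4 * h ^ 2 * σ i j ^ 2 + 50 * h ^ 3 := by
    intro i j
    have h1 := abs_le.1 (hXσ i j)
    have h2 := abs_le.1 (hσ1 i j)
    have h5 : σ i j ^ 2 ≤ 1 := (sq_le_one_iff_abs_le_one _).2 (hσ1 i j)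
    have e : X i j ^ 2 = s ^ 2 * σ i j ^ 2 - 2 * s * σ i j * (X i j + s * σ i j)
        + (X i j + s * σ i j) ^ 2 := by ring
    have h6 : (X i j + s * σ i j) ^ 2 ≤ ρ ^ 2 := sq_le_sq' h1.1 h1.2
    have h7 : -(2 * s * σ i j * (X i j + s * σ i j)) ≤ 2 * s * ρ := by
      have : |σ i j * (X i j + s * σ i j)| ≤ 1 * ρ := by
        rw [abs_mul]
        exact mul_le_mul (hσ1 i j) (hXσ i j) (abs_nonneg _) (by norm_num)
      have h3 := (abs_le.1 this).1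
      have h4 := mul_le_mul_of_nonneg_left h3 (by linarith : 0 ≤ 2 * s)
      linarith
    have h8 : s ^ 2 * σ i j ^ 2 ≤ 4 * h ^ 2 * σ i j ^ 2 + 5 * h ^ 3 := by
      have h3 := mul_le_mul_of_nonneg_right hs4 (sq_nonneg (σ i j))
      have h4 := mul_le_mul_of_nonneg_left h5 hp3.le
      linarith
    have h9 : s * ρ ≤ 25 / 2 * h ^ 3 := by
      have : s * ρ ≤ (5 / 2 * h) * (5 * h ^ 2) := mul_le_mul hs3 hρ2 hρ0 (by linarith)
      linarith
    have h10 : ρ ^ 2 ≤ 25 * h ^ 4 := by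
      have := pow_le_pow_left₀ hρ0 hρ2 2
      linarith
    have h11 : h ^ 4 ≤ h ^ 3 / 100 := hh4'
    rw [e]
    linarith
  have hsq2 : ∑ i, ∑ j, X i j ^ 2 ≤ 4 * h ^ 2 * (∑ i, ∑ j, σ i j ^ 2) + 50 * h ^ 3 * k ^ 2 := by
    refine le_trans (Finset.sum_le_sum fun i _ => Finset.sum_le_sum fun j _ => hsq i j)
      (le_of_eq ?_)
    simp only [Finset.sum_add_distrib, ← Finset.mul_sum, Finset.sum_const, Finset.card_univ,
      Fintype.card_fin, nsmul_eq_mul]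
    ring
  have hk2 : (k : ℝ) ≤ k ^ 3 := le_self_pow₀ hk' (by norm_num)
  have hk3 : (k : ℝ) ^ 2 ≤ k ^ 3 := pow_le_pow_right₀ hk' (by norm_num)
  have hh5 : 0 < h ^ 3 := pow_pos hh 3
  have f1 : h ^ 3 * k ≤ h ^ 3 * k ^ 3 := mul_le_mul_of_nonneg_left hk2 hh5.le
  have f2 : h ^ 3 * k ^ 2 ≤ h ^ 3 * k ^ 3 := mul_le_mul_of_nonneg_left hk3 hh5.le
  have f3 : 0 ≤ h ^ 3 * (k : ℝ) ^ 3 := by positivity
  have e4 : (k * (3 * h)) ^ 3 = 27 * (h ^ 3 * k ^ 3) := by ring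
  rw [e4]
  change 2 * h ^ 2 * (∑ i, ‖(m i).1‖ ^ 2) - 2 * h * (∑ i, σ i i)
      - 4 * h ^ 2 * (∑ i, ‖Eᗮᗮ.starProjection (R.Sθ θ (m i).1)‖ ^ 2)
      - 2 * h ^ 2 * (∑ i, ∑ j, σ i j ^ 2) - 5000 * k ^ 3 * h ^ 3 ≤ _
  linarith

end Pool.Agent.Helper83.NS
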