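/-
MP_e98778_an, FULL PROJECT, MODULE H2 (NS), part (a6): the sum over the four directions.
-/
import Mathlib
import Pool.Agent.Helper83.NS.Loc

open MeasureTheory Set
open scoped ComplexConjugate Real InnerProductSpace

namespace Pool.Agent.Helper83.NS

/-- One direction, numbers only. -/
theorem one_dir {k h κ t τ b : ℝ} (hk : 1 ≤ k) (hh : 0 < h) (hh1 : h ≤ 1 / (100 * k))
    (hκ0 : 0 ≤ κ) (hκ : κ ≤ k) (ht : |t| ≤ k) (hτ0 : 0 ≤ τ) (hτ : τ ≤ k) (hb0 : 0 ≤ b)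
    (hb : b ≤ k ^ 2) {D : ℝ} (hD : 0 < D)
    (hl : 2 * h ^ 2 * κ - 2 * h * t - 4 * h ^ 2 * τ - 2 * h ^ 2 * b - 5000 * k ^ 3 * h ^ 3
      ≤ Real.log D) :
    D ^ (-(1 / k)) ≤ 1 + 2 * h * (1 / k) * t
      - (1 / k) * (2 * h ^ 2 * κ - 4 * h ^ 2 * τ - 2 * h ^ 2 * b)
      + 2 * h ^ 2 * (1 / k) ^ 2 * t ^ 2 + 5200 * k ^ 2 * h ^ 3 := by
  have hk0 : 0 < k := by linarith
  have hkh : h * k ≤ 1 / 100 := by
    rw [le_div_iff₀ (by positivity)] at hh1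
    linarith
  set p := 1 / k with hp
  have hp0 : 0 < p := by positivity
  have hpk : p * k = 1 := by rw [hp]; field_simp
  rw [Real.rpow_def_of_pos hD]
  set w := p * t with hw
  have hw1 : |w| ≤ 1 := by
    rw [hw, abs_mul, abs_of_pos hp0]
    calc p * |t| ≤ p * k := mul_le_mul_of_nonneg_left ht hp0.le
      _ = 1 := hpk
  set κ' := p * κ with hκ'
  set τ' := p * τ with hτ'
  set b' := p * b with hb'
  have k1 : 0 ≤ κ' := by positivity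
  have k2 : κ' ≤ 1 := by rw [← hpk]; exact mul_le_mul_of_nonneg_left hκ hp0.le
  have t1 : 0 ≤ τ' := by positivity
  have t2 : τ' ≤ 1 := by rw [← hpk]; exact mul_le_mul_of_nonneg_left hτ hp0.le
  have b1 : 0 ≤ b' := by positivity
  have b2 : b' ≤ k := by
    have : b' ≤ p * k ^ 2 := mul_le_mul_of_nonneg_left hb hp0.le
    have e : p * k ^ 2 = k := by rw [sq, ← mul_assoc, hpk, one_mul]
    linarith
  set z := -(2 * h ^ 2 * κ' - 4 * h ^ 2 * τ' - 2 * h ^ 2 * b') + 5000 * k ^ 2 * h ^ 3 with hz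
  set y := 2 * h * w + z with hy
  have hly : Real.log D * -p ≤ y := by
    have e : y = -p * (2 * h ^ 2 * κ - 2 * h * t - 4 * h ^ 2 * τ - 2 * h ^ 2 * b
        - 5000 * k ^ 3 * h ^ 3) := by
      have e3 : p * k ^ 3 = k ^ 2 := by
        calc p * k ^ 3 = (p * k) * k ^ 2 := by ring
          _ = _ := by rw [hpk, one_mul]
      rw [hy, hz, hw, hκ', hτ', hb']
      linear_combination (-5000 * h ^ 3) * e3
    rw [e]
    have := mul_le_mul_of_nonneg_left hl hp0.le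
    linarith
  have hh2 : 0 < h ^ 2 := by positivity
  have hk2 : h ^ 2 ≤ k * h ^ 2 := le_mul_of_one_le_left hh2.le hk
  have hk3 : k ^ 2 * h ^ 3 ≤ k * h ^ 2 / 100 := by
    have e : k ^ 2 * h ^ 3 = (k * h ^ 2) * (h * k) := by ring
    have h1 : 0 ≤ k * h ^ 2 := by positivity
    have := mul_le_mul_of_nonneg_left hkh h1
    linarith
  have hk2h : k * h ^ 2 ≤ h / 100 := by
    have e : k * h ^ 2 = h * (h * k) := by ring
    have := mul_le_mul_of_nonneg_left hkh hh.le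
    linarith
  have hz1 : |z| ≤ 58 * k * h ^ 2 := by
    have a1 : h ^ 2 * κ' ≤ h ^ 2 * 1 := mul_le_mul_of_nonneg_left k2 hh2.le
    have a2 : h ^ 2 * τ' ≤ h ^ 2 * 1 := mul_le_mul_of_nonneg_left t2 hh2.le
    have a3 : h ^ 2 * b' ≤ h ^ 2 * k := mul_le_mul_of_nonneg_left b2 hh2.le
    have a4 : 0 ≤ h ^ 2 * κ' := by positivity
    have a5 : 0 ≤ h ^ 2 * τ' := by positivity
    have a6 : 0 ≤ h ^ 2 * b' := by positivity
    have a7 : 0 ≤ k ^ 2 * h ^ 3 := by positivity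
    rw [abs_le]
    constructor
    · linarith
    · linarith
  have hw2 := abs_le.1 hw1
  have hz2 := abs_le.1 hz1
  have hy1 : |y| ≤ 3 * h := by
    rw [abs_le]
    constructor
    · have := mul_le_mul_of_nonneg_left hw2.1 hh.le
      linarith
    · have := mul_le_mul_of_nonneg_left hw2.2 hh.le
      linarith
  have hh100 : h ≤ 1 / 100 := (le_mul_of_one_le_right hh.le hk).trans hkh
  have hy2 : |y| ≤ 1 := by linarith
  have hexp := exp_three hy2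
  have hy3 : |y| ^ 3 ≤ 27 * h ^ 3 := by
    have := pow_le_pow_left₀ (abs_nonneg y) hy1 3
    have e : (3 * h) ^ 3 = 27 * h ^ 3 := by ring
    rwa [e] at this
  have hwz : w * z ≤ 58 * k * h ^ 2 := by
    have : |w * z| ≤ 1 * (58 * k * h ^ 2) := by
      rw [abs_mul]
      exact mul_le_mul hw1 hz1 (abs_nonneg _) (by norm_num)
    have := (abs_le.1 this).2
    linarith
  have hzz : z ^ 2 ≤ 34 * k * h ^ 3 := by
    have h1 : z ^ 2 ≤ (58 * k * h ^ 2) ^ 2 := sq_le_sq' hz2.1 hz2.2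
    have h2 : (58 * k * h ^ 2) ^ 2 = 3364 * (k * h ^ 3) * (h * k) := by ring
    have h3 : 0 ≤ k * h ^ 3 := by positivity
    have h4 := mul_le_mul_of_nonneg_left hkh h3
    linarith
  have hyy : y ^ 2 / 2 ≤ 2 * h ^ 2 * w ^ 2 + 133 * k * h ^ 3 := by
    have e : y ^ 2 / 2 = 2 * h ^ 2 * w ^ 2 + 2 * h * (w * z) + z ^ 2 / 2 := by rw [hy]; ring
    have h1 : 2 * h * (w * z) ≤ 2 * h * (58 * k * h ^ 2) :=
      mul_le_mul_of_nonneg_left hwz (by linarith)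
    have h2 : 2 * h * (58 * k * h ^ 2) = 116 * k * h ^ 3 := by ring
    rw [e]; linarith
  have hh3 : 0 < h ^ 3 := by positivity
  have f1 : h ^ 3 ≤ k ^ 2 * h ^ 3 := le_mul_of_one_le_left hh3.le (one_le_pow₀ hk)
  have f2 : k * h ^ 3 ≤ k ^ 2 * h ^ 3 :=
    mul_le_mul_of_nonneg_right (by rw [sq]; exact le_mul_of_one_le_left hk0.le hk) hh3.le
  calc Real.exp (Real.log D * -p) ≤ Real.exp y := Real.exp_le_exp.2 hly
    _ ≤ 1 + y + y ^ 2 / 2 + |y| ^ 3 := hexp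
    _ ≤ 1 + y + (2 * h ^ 2 * w ^ 2 + 133 * k * h ^ 3) + 27 * h ^ 3 := by linarith
    _ ≤ 1 + (2 * h * w - (2 * h ^ 2 * κ' - 4 * h ^ 2 * τ' - 2 * h ^ 2 * b'))
        + 2 * h ^ 2 * w ^ 2 + 5200 * k ^ 2 * h ^ 3 := by
        linarith
    _ = _ := by rw [hw, hκ', hτ', hb']; ring

variable {L : Type*} [NormedAddCommGroup L] [InnerProductSpace ℝ L] [CompleteSpace L]

/-- The local inequality for an orthonormal family of harmonic vectors. -/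
theorem local_on (R : Refl L) {E : Submodule ℝ L} (hE : IsClosed (E : Set L)) (hi : Iso R E)
    {k : ℕ} (hk : 1 ≤ k) {m : Fin k → L × ℝ} (hm : ON m) (hH : ∀ i, Ha R E (m i).1) {h : ℝ}
    (hh : 0 < h) (hh1 : h ≤ 1 / (100 * k)) :
    ∑ i ∈ Finset.range 4, (1 + XM R E m h (i * (π / 4))).det ^ (-(1 / (k : ℝ)))
      ≤ 4 * (1 + 5200 * k ^ 2 * h ^ 3) := by
  have hk' : (1 : ℝ) ≤ k := by exact_mod_cast hk
  set κ := ∑ i, ‖(m i).1‖ ^ 2 with hκ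
  set t : ℝ → ℝ := fun θ => ∑ i, ⟪R.Sθ θ (m i).1, (m i).1⟫_ℝ with ht
  set τ : ℝ → ℝ := fun θ => ∑ i, ‖Eᗮᗮ.starProjection (R.Sθ θ (m i).1)‖ ^ 2 with hτ
  set b : ℝ → ℝ := fun θ => ∑ i, ∑ j, ⟪R.Sθ θ (m i).1, (m j).1⟫_ℝ ^ 2 with hb
  have hn := fun i => hm.norm_le i
  have hκ0 : 0 ≤ κ := Finset.sum_nonneg fun i _ => sq_nonneg _
  have hκ1 : κ ≤ k := by
    have : κ ≤ ∑ i : Fin k, (1 : ℝ) := Finset.sum_le_sum fun i _ =>
      pow_le_one₀ (norm_nonneg _) (hn i)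
    simpa using this
  have hip : ∀ θ i j, |⟪R.Sθ θ (m i).1, (m j).1⟫_ℝ| ≤ 1 := by
    intro θ i j
    refine (abs_real_inner_le_norm _ _).trans ?_
    rw [R.norm_Sθ]
    exact mul_le_one₀ (hn i) (norm_nonneg _) (hn j)
  have ht1 : ∀ θ, |t θ| ≤ k := by
    intro θ
    refine (Finset.abs_sum_le_sum_abs _ _).trans ?_
    have : ∑ i, |⟪R.Sθ θ (m i).1, (m i).1⟫_ℝ| ≤ ∑ i : Fin k, (1 : ℝ) :=
      Finset.sum_le_sum fun i _ => hip θ i i
    simpa using this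
  have hτ0 : ∀ θ, 0 ≤ τ θ := fun θ => Finset.sum_nonneg fun i _ => sq_nonneg _
  have hτ1 : ∀ θ, τ θ ≤ k := by
    intro θ
    have : τ θ ≤ ∑ i : Fin k, (1 : ℝ) := Finset.sum_le_sum fun i _ => by
      have h1 := Submodule.norm_starProjection_apply_le (Eᗮᗮ) (R.Sθ θ (m i).1)
      rw [R.norm_Sθ] at h1
      exact pow_le_one₀ (norm_nonneg _) (h1.trans (hn i))
    simpa using this
  have hb0 : ∀ θ, 0 ≤ b θ := fun θ => Finset.sum_nonneg fun i _ =>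
    Finset.sum_nonneg fun j _ => sq_nonneg _
  have hb1 : ∀ θ, b θ ≤ (k : ℝ) ^ 2 := by
    intro θ
    have : b θ ≤ ∑ i : Fin k, ∑ j : Fin k, (1 : ℝ) := Finset.sum_le_sum fun i _ =>
      Finset.sum_le_sum fun j _ => (sq_le_one_iff_abs_le_one _).2 (hip θ i j)
    simpa [sq] using this
  have hdir : ∀ θ, (1 + XM R E m h θ).det ^ (-(1 / (k : ℝ)))
      ≤ 1 + 2 * h * (1 / k) * t θ
      - (1 / k) * (2 * h ^ 2 * κ - 4 * h ^ 2 * τ θ - 2 * h ^ 2 * b θ)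
      + 2 * h ^ 2 * (1 / k) ^ 2 * t θ ^ 2 + 5200 * k ^ 2 * h ^ 3 := by
    intro θ
    obtain ⟨hD, hl⟩ := log_det_dir R hE hk hm hH hh hh1 θ
    exact one_dir hk' hh hh1 hκ0 hκ1 (ht1 θ) (hτ0 θ) (hτ1 θ) (hb0 θ) (hb1 θ) hD hl
  -- the sums over the four directions
  have st : ∑ i ∈ Finset.range 4, t (i * (π / 4)) = 0 := by
    simp only [ht]
    rw [Finset.sum_comm]
    exact Finset.sum_eq_zero fun j _ => R.sum_inner_four _ _
  set β := ∑ i, ‖R.PH E (R.S (m i).1)‖ ^ 2 with hβ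
  have sτ : ∑ i ∈ Finset.range 4, τ (i * (π / 4)) = 2 * (κ - β) := by
    simp only [hτ]
    rw [Finset.sum_comm]
    have : ∀ j : Fin k, ∑ i ∈ Finset.range 4,
        ‖Eᗮᗮ.starProjection (R.Sθ (i * (π / 4)) (m j).1)‖ ^ 2
        = 2 * (‖(m j).1‖ ^ 2 - ‖R.PH E (R.S (m j).1)‖ ^ 2) := by
      intro j
      rw [R.Sθ_four (fun z => ‖Eᗮᗮ.starProjection z‖ ^ 2) (fun z => by simp)]
      rw [R.PH_norm hE hi, R.norm_S]
      ring
    rw [Finset.sum_congr rfl fun j _ => this j, ← Finset.mul_sum, Finset.sum_sub_distrib]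
  set b₀ := ∑ i, ∑ j, ⟪R.S (m i).1, (m j).1⟫_ℝ ^ 2 with hb₀
  set b₁ := ∑ i, ∑ j, ⟪R.J (R.S (m i).1), (m j).1⟫_ℝ ^ 2 with hb₁
  have sb : ∑ i ∈ Finset.range 4, b (i * (π / 4)) = 2 * (b₀ + b₁) := by
    simp only [hb]
    rw [Finset.sum_comm]
    have : ∀ j : Fin k, ∑ i ∈ Finset.range 4, ∑ l, ⟪R.Sθ (i * (π / 4)) (m j).1, (m l).1⟫_ℝ ^ 2
        = 2 * (∑ l, ⟪R.S (m j).1, (m l).1⟫_ℝ ^ 2 + ∑ l, ⟪R.J (R.S (m j).1), (m l).1⟫_ℝ ^ 2) := by
      intro j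
      exact R.Sθ_four (fun z => ∑ l, ⟪z, (m l).1⟫_ℝ ^ 2) (fun z => by simp [inner_neg_left]) _
    rw [Finset.sum_congr rfl fun j _ => this j, ← Finset.mul_sum, Finset.sum_add_distrib]
  set t₀ := ∑ i, ⟪R.S (m i).1, (m i).1⟫_ℝ with ht₀
  set t₁ := ∑ i, ⟪R.J (R.S (m i).1), (m i).1⟫_ℝ with ht₁
  have tθ : ∀ θ, t θ = Real.cos (2 * θ) * t₀ - Real.sin (2 * θ) * t₁ := by
    intro θ
    simp only [ht, ht₀, ht₁, R.Sθ_apply, inner_sub_left, real_inner_smul_left,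
      Finset.sum_sub_distrib, ← Finset.mul_sum]
  have st2 : ∑ i ∈ Finset.range 4, t (i * (π / 4)) ^ 2 = 2 * (t₀ ^ 2 + t₁ ^ 2) := by
    have h0 : (2 : ℝ) * (((0 : ℕ) : ℝ) * (π / 4)) = 0 := by simp
    have h1 : (2 : ℝ) * (((1 : ℕ) : ℝ) * (π / 4)) = π / 2 := by push_cast; ring
    have h2 : (2 : ℝ) * (((2 : ℕ) : ℝ) * (π / 4)) = π := by push_cast; ring
    have h3 : (2 : ℝ) * (((3 : ℕ) : ℝ) * (π / 4)) = π + π / 2 := by push_cast; ring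
    simp only [tθ, Finset.sum_range_succ, Finset.sum_range_zero, h0, h1, h2, h3, Real.cos_add,
      Real.sin_add, Real.cos_zero, Real.sin_zero, Real.cos_pi, Real.sin_pi, Real.cos_pi_div_two,
      Real.sin_pi_div_two]
    ring
  -- the trace inequalities
  have i1 : t₁ ^ 2 ≤ k * (β - b₀) := by
    have := trace_le R hm (fun j => R.PH E (R.S (m j).1)) (by
      intro i j
      rw [R.PH_inner hE _ (hH i), R.PH_inner hE _ (hH j), R.Ssymm, real_inner_comm])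
    have e1 : ∀ j, ⟪R.J (R.PH E (R.S (m j).1)), (m j).1⟫_ℝ = ⟪R.J (R.S (m j).1), (m j).1⟫_ℝ := by
      intro j
      rw [← R.PH_J, R.PH_inner hE _ (hH j)]
    have e2 : ∀ j i, ⟪R.PH E (R.S (m j).1), (m i).1⟫_ℝ = ⟪R.S (m j).1, (m i).1⟫_ℝ := by
      intro j i
      rw [R.PH_inner hE _ (hH i)]
    simpa only [e1, e2] using this
  have i0 : t₀ ^ 2 ≤ k * (β - b₁) := by
    have := trace_le R hm (fun j => R.PH E (R.J (R.S (m j).1))) (by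
      intro i j
      rw [R.PH_inner hE _ (hH i), R.PH_inner hE _ (hH j), R.JS_symm, real_inner_comm])
    have e1 : ∀ j, ⟪R.J (R.PH E (R.J (R.S (m j).1))), (m j).1⟫_ℝ = -⟪R.S (m j).1, (m j).1⟫_ℝ := by
      intro j
      rw [← R.PH_J, R.PH_inner hE _ (hH j), R.JJ, inner_neg_left]
    have e2 : ∀ j i, ⟪R.PH E (R.J (R.S (m j).1)), (m i).1⟫_ℝ
        = ⟪R.J (R.S (m j).1), (m i).1⟫_ℝ := by
      intro j i
      rw [R.PH_inner hE _ (hH i)]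
    have e3 : ∀ j, ‖R.PH E (R.J (R.S (m j).1))‖ = ‖R.PH E (R.S (m j).1)‖ := by
      intro j
      rw [R.PH_J, R.norm_J]
    simp only [e1, e2, e3, Finset.sum_neg_distrib, neg_sq] at this
    exact this
  -- conclusion
  have hsum : ∑ i ∈ Finset.range 4, (1 + XM R E m h (i * (π / 4))).det ^ (-(1 / (k : ℝ)))
      ≤ ∑ i ∈ Finset.range 4, (1 + 2 * h * (1 / k) * t (i * (π / 4))
      - (1 / k) * (2 * h ^ 2 * κ - 4 * h ^ 2 * τ (i * (π / 4)) - 2 * h ^ 2 * b (i * (π / 4)))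
      + 2 * h ^ 2 * (1 / k) ^ 2 * t (i * (π / 4)) ^ 2 + 5200 * k ^ 2 * h ^ 3) :=
    Finset.sum_le_sum fun i _ => hdir _
  refine hsum.trans ?_
  have e : ∑ i ∈ Finset.range 4, (1 + 2 * h * (1 / k) * t (i * (π / 4))
      - (1 / k) * (2 * h ^ 2 * κ - 4 * h ^ 2 * τ (i * (π / 4)) - 2 * h ^ 2 * b (i * (π / 4)))
      + 2 * h ^ 2 * (1 / k) ^ 2 * t (i * (π / 4)) ^ 2 + 5200 * k ^ 2 * h ^ 3)
      = 4 + 2 * h * (1 / k) * ∑ i ∈ Finset.range 4, t (i * (π / 4))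
      - (1 / k) * (8 * h ^ 2 * κ - 4 * h ^ 2 * ∑ i ∈ Finset.range 4, τ (i * (π / 4))
        - 2 * h ^ 2 * ∑ i ∈ Finset.range 4, b (i * (π / 4)))
      + 2 * h ^ 2 * (1 / k) ^ 2 * ∑ i ∈ Finset.range 4, t (i * (π / 4)) ^ 2
      + 4 * (5200 * k ^ 2 * h ^ 3) := by
    simp only [Finset.sum_range_succ, Finset.sum_range_zero]
    ring
  rw [e, st, sτ, sb, st2]
  have hp0 : 0 < 1 / (k : ℝ) := by positivity
  have hpk : (1 / (k : ℝ)) * k = 1 := by field_simp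
  have h2 : 0 ≤ h ^ 2 := sq_nonneg h
  have i2 : t₀ ^ 2 + t₁ ^ 2 ≤ k * (2 * β - b₀ - b₁) := by linarith
  have i3 : (1 / (k : ℝ)) ^ 2 * (t₀ ^ 2 + t₁ ^ 2) ≤ (1 / (k : ℝ)) * (2 * β - b₀ - b₁) := by
    calc (1 / (k : ℝ)) ^ 2 * (t₀ ^ 2 + t₁ ^ 2)
        ≤ (1 / (k : ℝ)) ^ 2 * (k * (2 * β - b₀ - b₁)) :=
          mul_le_mul_of_nonneg_left i2 (sq_nonneg _)
      _ = (1 / (k : ℝ)) * ((1 / (k : ℝ)) * k) * (2 * β - b₀ - b₁) := by ring
      _ = _ := by rw [hpk, mul_one]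
  have i4 := mul_le_mul_of_nonneg_left i3 h2
  generalize 1 / (k : ℝ) = P at i4 ⊢
  linarith

end Pool.Agent.Helper83.NS
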