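/-
MP_e98778_an, FULL PROJECT, MODULE H2 (NS), part (a7): matrices.
-/
import Mathlib

open Matrix

namespace Pool.Agent.Helper83.NS

variable {k : ℕ}

theorem exists_diag {X : Matrix (Fin k) (Fin k) ℝ} (hX : ∀ i j, X i j = X j i) :
    ∃ U : Matrix (Fin k) (Fin k) ℝ, ∃ lam : Fin k → ℝ, Uᵀ * U = 1 ∧ U * Uᵀ = 1 ∧
      Uᵀ * X * U = diagonal lam := by
  have hH : X.IsHermitian := by
    ext i j
    simp [Matrix.conjTranspose_apply, hX j i]
  set U : Matrix (Fin k) (Fin k) ℝ := (hH.eigenvectorUnitary : Matrix (Fin k) (Fin k) ℝ) with hU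
  have hst : star U = Uᵀ := by
    rw [Matrix.star_eq_conjTranspose, Matrix.conjTranspose_eq_transpose_of_trivial]
  have hUU : U * Uᵀ = 1 := by rw [← hst]; exact Unitary.coe_mul_star_self _
  have hUU' : Uᵀ * U = 1 := by rw [← hst]; exact Unitary.coe_star_mul_self _
  have hs : X = U * diagonal hH.eigenvalues * Uᵀ := by
    have := hH.spectral_theorem
    rw [Unitary.conjStarAlgAut_apply] at this
    rw [← hst]
    exact this
  refine ⟨U, hH.eigenvalues, hUU', hUU, ?_⟩
  calc Uᵀ * X * U = Uᵀ * (U * diagonal hH.eigenvalues * Uᵀ) * U := by rw [← hs]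
    _ = (Uᵀ * U) * diagonal hH.eigenvalues * (Uᵀ * U) := by simp only [Matrix.mul_assoc]
    _ = _ := by rw [hUU', Matrix.one_mul, Matrix.mul_one]

theorem conj_apply (A X : Matrix (Fin k) (Fin k) ℝ) (i j : Fin k) :
    (Aᵀ * X * A) i j = ∑ a, ∑ b, A a i * A b j * X a b := by
  rw [Matrix.mul_apply]
  simp only [Matrix.mul_apply, Matrix.transpose_apply, Finset.sum_mul]
  rw [Finset.sum_comm]
  apply Finset.sum_congr rfl; intro a _
  apply Finset.sum_congr rfl; intro b _
  ring

/-- Positive semidefinite. -/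
def PSD (G : Matrix (Fin k) (Fin k) ℝ) : Prop :=
  (∀ i j, G i j = G j i) ∧ ∀ c : Fin k → ℝ, 0 ≤ ∑ i, ∑ j, c i * c j * G i j

/-- Normalisation of a positive definite matrix. -/
theorem exists_norm {G : Matrix (Fin k) (Fin k) ℝ} (hG : PSD G) (hd : 0 < G.det) :
    ∃ A : Matrix (Fin k) (Fin k) ℝ, Aᵀ * G * A = 1 ∧
      ∀ G' : Matrix (Fin k) (Fin k) ℝ, (Aᵀ * G' * A).det = G'.det / G.det := by
  obtain ⟨U, lam, h1, h2, h3⟩ := exists_diag hG.1
  have hdet : ∏ i, lam i = G.det := by
    have : (Uᵀ * G * U).det = ∏ i, lam i := by rw [h3, det_diagonal]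
    rw [← this, det_mul, det_mul, mul_comm (Uᵀ.det), mul_assoc, ← det_mul, h1, det_one, mul_one]
  have hlam0 : ∀ i, 0 ≤ lam i := by
    intro i
    have := hG.2 (fun a => U a i)
    rw [← conj_apply, h3, diagonal_apply_eq] at this
    exact this
  have hlam : ∀ i, 0 < lam i := by
    intro i
    refine lt_of_le_of_ne (hlam0 i) ?_
    intro h0
    rw [← hdet, Finset.prod_eq_zero (Finset.mem_univ i) h0.symm] at hd
    exact lt_irrefl _ hd
  set A := U * diagonal (fun i => (Real.sqrt (lam i))⁻¹) with hA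
  have hAG : Aᵀ * G * A = 1 := by
    rw [hA, Matrix.transpose_mul, Matrix.diagonal_transpose]
    calc diagonal (fun i => (Real.sqrt (lam i))⁻¹) * Uᵀ * G * (U * diagonal (fun i => (Real.sqrt (lam i))⁻¹))
        = diagonal (fun i => (Real.sqrt (lam i))⁻¹) * (Uᵀ * G * U)
            * diagonal (fun i => (Real.sqrt (lam i))⁻¹) := by simp only [Matrix.mul_assoc]
      _ = 1 := by
        rw [h3, diagonal_mul_diagonal, diagonal_mul_diagonal, ← diagonal_one]
        congr 1
        ext i
        have hs := Real.mul_self_sqrt (hlam i).le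
        have hs0 : 0 < Real.sqrt (lam i) := Real.sqrt_pos.2 (hlam i)
        calc (Real.sqrt (lam i))⁻¹ * lam i * (Real.sqrt (lam i))⁻¹
            = (Real.sqrt (lam i))⁻¹ * (Real.sqrt (lam i) * Real.sqrt (lam i))
              * (Real.sqrt (lam i))⁻¹ := by rw [hs]
          _ = 1 := by field_simp
  refine ⟨A, hAG, fun G' => ?_⟩
  have h4 : A.det * A.det * G.det = 1 := by
    have := congrArg Matrix.det hAG
    rw [det_mul, det_mul, det_transpose, det_one] at this
    linarith
  rw [det_mul, det_mul, det_transpose]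
  field_simp
  calc A.det ^ 2 * G'.det * G.det = (A.det * A.det * G.det) * G'.det := by ring
    _ = _ := by rw [h4, one_mul]

/-- Monotonicity of the determinant. -/
theorem det_le_of_le {G G' : Matrix (Fin k) (Fin k) ℝ} (hG : PSD G) (hG' : PSD G')
    (hd : 0 < G.det) {c : ℝ}
    (hle : ∀ v : Fin k → ℝ, ∑ i, ∑ j, v i * v j * G' i j ≤ c * ∑ i, ∑ j, v i * v j * G i j) :
    G'.det ≤ c ^ k * G.det := by
  obtain ⟨A, h1, h2⟩ := exists_norm hG hd
  set H := Aᵀ * G' * A with hH
  have hHs : ∀ i j, H i j = H j i := by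
    intro i j
    rw [hH, conj_apply, conj_apply, Finset.sum_comm]
    apply Finset.sum_congr rfl; intro a _
    apply Finset.sum_congr rfl; intro b _
    rw [hG'.1 b a]; ring
  obtain ⟨U, lam, u1, u2, u3⟩ := exists_diag hHs
  have hdet : ∏ i, lam i = H.det := by
    have : (Uᵀ * H * U).det = ∏ i, lam i := by rw [u3, det_diagonal]
    rw [← this, det_mul, det_mul, mul_comm (Uᵀ.det), mul_assoc, ← det_mul, u1, det_one, mul_one]
  have hcomb : Uᵀ * H * U = (A * U)ᵀ * G' * (A * U) := by
    rw [hH, Matrix.transpose_mul]; simp only [Matrix.mul_assoc]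
  have hcomb1 : (A * U)ᵀ * G * (A * U) = 1 := by
    rw [Matrix.transpose_mul]
    calc Uᵀ * Aᵀ * G * (A * U) = Uᵀ * (Aᵀ * G * A) * U := by simp only [Matrix.mul_assoc]
      _ = 1 := by rw [h1, Matrix.mul_one, u1]
  have hlam : ∀ i, lam i = ∑ a, ∑ b, (A * U) a i * (A * U) b i * G' a b := by
    intro i
    rw [← conj_apply, ← hcomb, u3, diagonal_apply_eq]
  have h0 : ∀ i, 0 ≤ lam i := fun i => by rw [hlam i]; exact hG'.2 _
  have hc : ∀ i, lam i ≤ c := by
    intro i
    rw [hlam i]
    refine (hle _).trans ?_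
    have : ∑ a, ∑ b, (A * U) a i * (A * U) b i * G a b = 1 := by
      rw [← conj_apply, hcomb1, one_apply_eq]
    rw [this, mul_one]
  have hprod : ∏ i, lam i ≤ c ^ k := by
    have := Finset.prod_le_prod (s := Finset.univ) (fun i _ => h0 i) (fun i _ => hc i)
    simpa using this
  rw [hdet, hH, h2, div_le_iff₀ hd] at hprod
  exact hprod

/-- Positive semidefinite matrices have nonnegative determinant. -/
theorem PSD.det_nonneg {G : Matrix (Fin k) (Fin k) ℝ} (hG : PSD G) : 0 ≤ G.det := by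
  obtain ⟨U, lam, h1, h2, h3⟩ := exists_diag hG.1
  have hdet : ∏ i, lam i = G.det := by
    have : (Uᵀ * G * U).det = ∏ i, lam i := by rw [h3, det_diagonal]
    rw [← this, det_mul, det_mul, mul_comm (Uᵀ.det), mul_assoc, ← det_mul, h1, det_one, mul_one]
  rw [← hdet]
  apply Finset.prod_nonneg
  intro i _
  have := hG.2 (fun a => U a i)
  rw [← conj_apply, h3, diagonal_apply_eq] at this
  exact this

/-- Positive determinant from definiteness. -/
theorem PSD.det_pos {G : Matrix (Fin k) (Fin k) ℝ} (hG : PSD G)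
    (hp : ∀ c : Fin k → ℝ, c ≠ 0 → 0 < ∑ i, ∑ j, c i * c j * G i j) : 0 < G.det := by
  obtain ⟨U, lam, h1, h2, h3⟩ := exists_diag hG.1
  have hdet : ∏ i, lam i = G.det := by
    have : (Uᵀ * G * U).det = ∏ i, lam i := by rw [h3, det_diagonal]
    rw [← this, det_mul, det_mul, mul_comm (Uᵀ.det), mul_assoc, ← det_mul, h1, det_one, mul_one]
  rw [← hdet]
  apply Finset.prod_pos
  intro i _
  have h4 : (fun a => U a i) ≠ 0 := by
    intro h0
    have h5 : (Uᵀ * U) i i = 0 := by
      rw [Matrix.mul_apply]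
      apply Finset.sum_eq_zero
      intro a _
      have := congrFun h0 a
      simp only [Pi.zero_apply] at this
      rw [this, mul_zero]
    rw [h1, one_apply_eq] at h5
    exact one_ne_zero h5
  have := hp (fun a => U a i) h4
  rw [← conj_apply, h3, diagonal_apply_eq] at this
  exact this

end Pool.Agent.Helper83.NS
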