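/-
MP_e98778_an, FULL PROJECT, MODULE H2 (NS), part (a8): the Gram determinant of a general family as
a function on SL_2(R): local inequality, continuity, invariance under rotations, comparison.
-/
import Mathlib
import Pool.Agent.Helper83.NS.Four
import Pool.Agent.Helper83.NS.Mat

open MeasureTheory Set
open scoped ComplexConjugate Real InnerProductSpace

namespace Pool.Agent.Helper83.NS

variable {L : Type*} [NormedAddCommGroup L] [InnerProductSpace ℝ L]

/-- A bound for the operator norm of `act d`. -/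
noncomputable def opn (d : ℂ × ℂ) : ℝ := ‖d.1‖ + ‖d.2‖

theorem Refl.norm_act_le (R : Refl L) (d : ℂ × ℂ) (x : L) : ‖R.act d x‖ ≤ opn d * ‖x‖ := by
  have aux : ∀ (z : ℂ) (y : L), ‖z.re • y + z.im • R.J y‖ = ‖z‖ * ‖y‖ := by
    intro z y
    have h1 : ‖z.re • y + z.im • R.J y‖ ^ 2 = (‖z‖ * ‖y‖) ^ 2 := by
      have e : ⟪y, R.J y⟫_ℝ = 0 := by rw [real_inner_comm]; exact R.inner_J_self y
      rw [@norm_add_sq_real, real_inner_smul_left, real_inner_smul_right, e, norm_smul, norm_smul,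
        R.norm_J, mul_pow, mul_pow, mul_pow, ← Complex.normSq_eq_norm_sq, Complex.normSq_apply,
        Real.norm_eq_abs, Real.norm_eq_abs, sq_abs, sq_abs]
      ring
    exact (sq_eq_sq₀ (norm_nonneg _) (by positivity)).1 h1
  have e1 : R.act d x = (d.1.re • x + d.1.im • R.J x) + (d.2.re • R.S x + d.2.im • R.J (R.S x)) := by
    rw [R.act_apply]; abel
  rw [e1]
  refine (norm_add_le _ _).trans ?_
  rw [aux, aux, R.norm_S, opn]
  linarith

theorem opn_rot (θ : ℝ) : opn (rot θ) = 1 := by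
  simp [opn, rot, Complex.norm_exp_ofReal_mul_I]

theorem continuous_opn : Continuous opn := by
  unfold opn; fun_prop

variable [CompleteSpace L]

/-- Comparison of the quotient norms. -/
theorem Refl.norm_Q_mul_le (R : Refl L) {E : Submodule ℝ L} (hE : IsClosed (E : Set L))
    {g : ℂ × ℂ} (hg : g ∈ SL) (d : ℂ × ℂ) (x : L) :
    ‖R.Q E (mul d g) x‖ ≤ opn d * ‖R.Q E g x‖ := by
  obtain ⟨e, he, h⟩ := R.Q_sub hE hg x
  rw [h]
  have h1 := R.gm_le (mul d g) x he
  rw [R.gm_self, R.act_mul] at h1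
  have h2 : ‖R.Q E (mul d g) x‖ ≤ ‖R.act d (R.act g (x + e))‖ :=
    (sq_le_sq₀ (norm_nonneg _) (norm_nonneg _)).1 h1
  exact h2.trans (R.norm_act_le _ _)

theorem Refl.norm_Q_rot (R : Refl L) {E : Submodule ℝ L} (hE : IsClosed (E : Set L))
    {g : ℂ × ℂ} (hg : g ∈ SL) (θ : ℝ) (x : L) :
    ‖R.Q E (mul (rot θ) g) x‖ = ‖R.Q E g x‖ := by
  apply le_antisymm
  · have := R.norm_Q_mul_le hE hg (rot θ) x
    rwa [opn_rot, one_mul] at this
  · have := R.norm_Q_mul_le hE (mul_mem (rot_mem θ) hg) (rot (-θ)) x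
    rw [← mul_assoc', rot_add, neg_add_cancel, rot_zero, one_mul', opn_rot, one_mul] at this
    exact this

/-- Polarisation. -/
theorem Refl.gm_polar (R : Refl L) (E : Submodule ℝ L) (g : ℂ × ℂ) (x y : L) :
    R.gm E g x y = (‖R.Q E g (x + y)‖ ^ 2 - ‖R.Q E g (x - y)‖ ^ 2) / 4 := by
  rw [← R.gm_self, ← R.gm_self, R.gm_add_left, R.gm_add_right, R.gm_add_right, R.gm_sub_left,
    R.gm_sub_right, R.gm_sub_right, R.gm_symm E g y x]
  ring

theorem Refl.gm_rot (R : Refl L) {E : Submodule ℝ L} (hE : IsClosed (E : Set L))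
    {g : ℂ × ℂ} (hg : g ∈ SL) (θ : ℝ) (x y : L) :
    R.gm E (mul (rot θ) g) x y = R.gm E g x y := by
  rw [R.gm_polar, R.gm_polar, R.norm_Q_rot hE hg, R.norm_Q_rot hE hg]

theorem Refl.continuousOn_norm_Q (R : Refl L) {E : Submodule ℝ L} (hE : IsClosed (E : Set L))
    (x : L) : ContinuousOn (fun g => ‖R.Q E g x‖) SL := by
  intro g₀ hg₀
  set N := ‖R.Q E g₀ x‖ with hN
  -- upper and lower functions
  have hup : ∀ g ∈ SL, ‖R.Q E g x‖ ≤ opn (mul g (inv g₀)) * N := by
    intro g hg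
    have := R.norm_Q_mul_le hE hg₀ (mul g (inv g₀)) x
    rwa [mul_assoc', inv_mul' hg₀, mul_one'] at this
  have hlo : ∀ g ∈ SL, N ≤ opn (mul g₀ (inv g)) * ‖R.Q E g x‖ := by
    intro g hg
    have := R.norm_Q_mul_le hE hg (mul g₀ (inv g)) x
    rwa [mul_assoc', inv_mul' hg, mul_one'] at this
  have hopn1 : opn ((1, 0) : ℂ × ℂ) = 1 := by simp [opn]
  have c1 : Continuous (fun g : ℂ × ℂ => opn (mul g (inv g₀)) * N) := by
    apply Continuous.mul _ continuous_const
    apply continuous_opn.comp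
    unfold mul; fun_prop
  have c2 : Continuous (fun g : ℂ × ℂ => opn (mul g₀ (inv g))) := by
    apply continuous_opn.comp
    unfold mul inv; fun_prop
  have t1 : Filter.Tendsto (fun g : ℂ × ℂ => opn (mul g (inv g₀)) * N) (nhdsWithin g₀ SL)
      (nhds N) := by
    have h := c1.tendsto g₀
    simp only [mul_inv' hg₀, hopn1, one_mul] at h
    exact h.mono_left nhdsWithin_le_nhds
  have t2 : Filter.Tendsto (fun g : ℂ × ℂ => N / opn (mul g₀ (inv g))) (nhdsWithin g₀ SL)
      (nhds N) := by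
    have h := c2.tendsto g₀
    simp only [mul_inv' hg₀, hopn1] at h
    have h2 : Filter.Tendsto (fun g : ℂ × ℂ => N / opn (mul g₀ (inv g))) (nhds g₀)
        (nhds (N / 1)) := tendsto_const_nhds.div h one_ne_zero
    rw [div_one] at h2
    exact h2.mono_left nhdsWithin_le_nhds
  refine tendsto_of_tendsto_of_tendsto_of_le_of_le' t2 t1 ?_ ?_
  · filter_upwards [self_mem_nhdsWithin] with g hg
    have h1 := hlo g hg
    have h2 : 0 ≤ opn (mul g₀ (inv g)) := by unfold opn; positivity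
    rcases eq_or_lt_of_le h2 with h3 | h3
    · rw [← h3, div_zero]; exact norm_nonneg _
    · rw [div_le_iff₀ h3]; linarith
  · filter_upwards [self_mem_nhdsWithin] with g hg
    exact hup g hg

theorem Refl.continuousOn_gm (R : Refl L) {E : Submodule ℝ L} (hE : IsClosed (E : Set L))
    (x y : L) : ContinuousOn (fun g => R.gm E g x y) SL := by
  have : (fun g => R.gm E g x y)
      = fun g => (‖R.Q E g (x + y)‖ ^ 2 - ‖R.Q E g (x - y)‖ ^ 2) / 4 := by
    ext g; exact R.gm_polar E g x y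
  rw [this]
  exact (((R.continuousOn_norm_Q hE (x + y)).pow 2).sub
    ((R.continuousOn_norm_Q hE (x - y)).pow 2)).div_const 4

/-- The Gram matrix of a family in `L × ℝ`. -/
noncomputable def GM (R : Refl L) (E : Submodule ℝ L) {k : ℕ} (x : Fin k → L × ℝ) (g : ℂ × ℂ) :
    Matrix (Fin k) (Fin k) ℝ :=
  Matrix.of fun i j => R.gm E g (x i).1 (x j).1 + (x i).2 * (x j).2

theorem gm_sum (R : Refl L) (E : Submodule ℝ L) (g : ℂ × ℂ) {ι κ : Type*} (s : Finset ι)
    (t : Finset κ) (a : ι → ℝ) (b : κ → ℝ) (x : ι → L) (y : κ → L) :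
    R.gm E g (∑ i ∈ s, a i • x i) (∑ j ∈ t, b j • y j)
      = ∑ i ∈ s, ∑ j ∈ t, a i * b j * R.gm E g (x i) (y j) := by
  simp only [Refl.gm, map_sum, map_smul, sum_inner, inner_sum, real_inner_smul_left,
    real_inner_smul_right]
  rw [Finset.sum_comm]
  apply Finset.sum_congr rfl; intro i _
  apply Finset.sum_congr rfl; intro j _
  ring

/-- The quadratic form of the Gram matrix. -/
theorem GM_quad (R : Refl L) (E : Submodule ℝ L) {k : ℕ} (x : Fin k → L × ℝ) (g : ℂ × ℂ)
    (c : Fin k → ℝ) :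
    ∑ i, ∑ j, c i * c j * GM R E x g i j
      = ‖R.Q E g (∑ i, c i • (x i).1)‖ ^ 2 + (∑ i, c i * (x i).2) ^ 2 := by
  rw [← R.gm_self, gm_sum, sq, Finset.sum_mul_sum, ← Finset.sum_add_distrib]
  apply Finset.sum_congr rfl; intro i _
  rw [← Finset.sum_add_distrib]
  apply Finset.sum_congr rfl; intro j _
  simp only [GM, Matrix.of_apply]
  ring

theorem GM_psd (R : Refl L) (E : Submodule ℝ L) {k : ℕ} (x : Fin k → L × ℝ) (g : ℂ × ℂ) :
    PSD (GM R E x g) := by
  refine ⟨fun i j => ?_, fun c => ?_⟩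
  · simp only [GM, Matrix.of_apply]
    rw [R.gm_symm, mul_comm (x i).2]
  · rw [GM_quad]; positivity

/-- Independence modulo `E`. -/
def Ind (E : Submodule ℝ L) {k : ℕ} (x : Fin k → L × ℝ) : Prop :=
  ∀ c : Fin k → ℝ, c ≠ 0 → ¬ (∑ i, c i • (x i).1 ∈ E ∧ ∑ i, c i * (x i).2 = 0)

theorem Q_eq_zero (R : Refl L) {E : Submodule ℝ L} (hE : IsClosed (E : Set L)) {g : ℂ × ℂ}
    (hg : g ∈ SL) {x : L} (h : R.Q E g x = 0) : x ∈ E := by
  obtain ⟨e, he, h1⟩ := R.Q_sub hE hg x
  rw [h] at h1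
  have h2 := congrArg (R.act (inv g)) h1
  rw [R.act_inv_act hg, map_zero] at h2
  have : x = -e := by
    rw [eq_neg_iff_add_eq_zero]; exact h2.symm
  rw [this]; exact E.neg_mem he

theorem GM_det_pos (R : Refl L) {E : Submodule ℝ L} (hE : IsClosed (E : Set L)) {k : ℕ}
    {x : Fin k → L × ℝ} (hx : Ind E x) {g : ℂ × ℂ} (hg : g ∈ SL) : 0 < (GM R E x g).det := by
  apply (GM_psd R E x g).det_pos
  intro c hc
  rw [GM_quad]
  by_contra hneg
  push Not at hneg
  apply hx c hc
  have h1 : ‖R.Q E g (∑ i, c i • (x i).1)‖ ^ 2 = 0 := by nlinarith [sq_nonneg (∑ i, c i * (x i).2), sq_nonneg ‖R.Q E g (∑ i, c i • (x i).1)‖]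
  have h2 : (∑ i, c i * (x i).2) ^ 2 = 0 := by nlinarith [sq_nonneg (∑ i, c i * (x i).2), sq_nonneg ‖R.Q E g (∑ i, c i • (x i).1)‖]
  constructor
  · apply Q_eq_zero R hE hg
    rw [← norm_eq_zero]
    exact pow_eq_zero_iff (two_ne_zero) |>.1 h1
  · exact pow_eq_zero_iff (two_ne_zero) |>.1 h2

theorem continuousOn_GM_det (R : Refl L) {E : Submodule ℝ L} (hE : IsClosed (E : Set L)) {k : ℕ}
    (x : Fin k → L × ℝ) : ContinuousOn (fun g => (GM R E x g).det) SL := by
  simp only [Matrix.det_apply]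
  apply continuousOn_finsetSum
  intro σ _
  apply ContinuousOn.const_smul
  apply continuousOn_finsetProd
  intro i _
  simp only [GM, Matrix.of_apply]
  exact (R.continuousOn_gm hE _ _).add continuousOn_const

/-- Comparison of Gram determinants. -/
theorem GM_det_mul_le (R : Refl L) {E : Submodule ℝ L} (hE : IsClosed (E : Set L)) {k : ℕ}
    {x : Fin k → L × ℝ} (hx : Ind E x) {g : ℂ × ℂ} (hg : g ∈ SL) {d : ℂ × ℂ} {C : ℝ}
    (hd : opn d ≤ C) (hC : 1 ≤ C) :
    (GM R E x (mul d g)).det ≤ (C ^ 2) ^ k * (GM R E x g).det := by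
  apply det_le_of_le (GM_psd R E x g) (GM_psd R E x (mul d g)) (GM_det_pos R hE hx hg)
  intro v
  rw [GM_quad, GM_quad]
  have h1 := R.norm_Q_mul_le hE hg d (∑ i, v i • (x i).1)
  have h2 : ‖R.Q E (mul d g) (∑ i, v i • (x i).1)‖ ≤ C * ‖R.Q E g (∑ i, v i • (x i).1)‖ :=
    h1.trans (mul_le_mul_of_nonneg_right hd (norm_nonneg _))
  have h3 := pow_le_pow_left₀ (norm_nonneg _) h2 2
  have h4 : (∑ i, v i * (x i).2) ^ 2 ≤ C ^ 2 * (∑ i, v i * (x i).2) ^ 2 := by
    have : 1 ≤ C ^ 2 := by nlinarith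
    nlinarith [sq_nonneg (∑ i, v i * (x i).2)]
  nlinarith

/-- The local inequality for a general family. -/
theorem local_gen (R : Refl L) {E : Submodule ℝ L} (hE : IsClosed (E : Set L)) (hi : Iso R E)
    {k : ℕ} (hk : 1 ≤ k) {x : Fin k → L × ℝ} (hx : Ind E x) (hcl : ∀ i, Cl R E (x i).1)
    {g : ℂ × ℂ} (hg : g ∈ SL) {h : ℝ} (hh : 0 < h) (hh1 : h ≤ 1 / (100 * k)) :
    ∑ i ∈ Finset.range 4,
        (GM R E x (mul (dil h) (mul (rot (i * (π / 4))) g))).det ^ (-(1 / (k : ℝ)))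
      ≤ 4 * (1 + 5200 * k ^ 2 * h ^ 3) * (GM R E x g).det ^ (-(1 / (k : ℝ))) := by
  have hdet := GM_det_pos R hE hx hg
  obtain ⟨A, hA1, hA2⟩ := exists_norm (GM_psd R E x g) hdet
  set E' := R.im E g with hE'
  have hE'c : IsClosed (E' : Set L) := R.im_closed hE hg
  have hi' : Iso R E' := R.im_iso hi hg
  set y : Fin k → L := fun i => R.Q E g (x i).1 with hy
  set m : Fin k → L × ℝ := fun l => (∑ j, A j l • y j, ∑ j, A j l * (x j).2) with hm
  have hON : ON m := by
    intro i j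
    have h1 : (Matrix.transpose A * GM R E x g * A) i j = if i = j then 1 else 0 := by
      rw [hA1, Matrix.one_apply]
    rw [← h1, conj_apply]
    have e0 : ⟪(m i).1, (m j).1⟫_ℝ = ∑ a, ∑ b, A a i * A b j * ⟪y a, y b⟫_ℝ := by
      simp only [hm]
      rw [sum_inner]
      apply Finset.sum_congr rfl; intro a _
      rw [inner_sum]
      apply Finset.sum_congr rfl; intro b _
      rw [real_inner_smul_left, real_inner_smul_right]
      ring
    rw [e0]
    simp only [hm, Finset.sum_mul_sum]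
    rw [← Finset.sum_add_distrib]
    apply Finset.sum_congr rfl; intro a _
    rw [← Finset.sum_add_distrib]
    apply Finset.sum_congr rfl; intro b _
    simp only [GM, Matrix.of_apply, Refl.gm, hy]
    ring
  have hHa : ∀ i, Ha R E' (m i).1 := by
    intro i
    refine ⟨fun e he => ?_, fun e he => ?_⟩
    · simp only [hm, sum_inner, real_inner_smul_left]
      apply Finset.sum_eq_zero
      intro j _
      rw [R.Q_orth g _ he, mul_zero]
    · simp only [hm, map_sum, map_smul, sum_inner, real_inner_smul_left]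
      apply Finset.sum_eq_zero
      intro j _
      rw [R.Q_cl hE hi hg (hcl j) e he, mul_zero]
  have key : ∀ θ : ℝ, (1 + XM R E' m h θ).det
      = (GM R E x (mul (dil h) (mul (rot θ) g))).det / (GM R E x g).det := by
    intro θ
    rw [← hA2]
    congr 1
    ext i j
    rw [conj_apply]
    have e1 : (1 : Matrix (Fin k) (Fin k) ℝ) i j = ⟪(m i).1, (m j).1⟫_ℝ + (m i).2 * (m j).2 := by
      rw [hON i j, Matrix.one_apply]
    rw [Matrix.add_apply, e1]
    simp only [XM, Matrix.of_apply]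
    have e2 : R.gm E' (mul (dil h) (rot θ)) (m i).1 (m j).1
        = ∑ a, ∑ b, A a i * A b j * R.gm E' (mul (dil h) (rot θ)) (y a) (y b) := by
      simp only [hm]
      rw [gm_sum]
    have e3 : ∀ a b, R.gm E' (mul (dil h) (rot θ)) (y a) (y b)
        = R.gm E (mul (dil h) (mul (rot θ) g)) (x a).1 (x b).1 := by
      intro a b
      rw [← mul_assoc', R.gm_mul hE hg]
    have e4 : (m i).2 * (m j).2 = ∑ a, ∑ b, A a i * A b j * ((x a).2 * (x b).2) := by
      simp only [hm]
      rw [Finset.sum_mul_sum]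
      apply Finset.sum_congr rfl; intro a _
      apply Finset.sum_congr rfl; intro b _
      ring
    rw [e2, e4]
    have e5 : ∀ a b : ℝ, ∀ z : ℝ, z + b + (a - z) = a + b := by intros; ring
    rw [e5, ← Finset.sum_add_distrib]
    apply Finset.sum_congr rfl; intro a _
    rw [← Finset.sum_add_distrib]
    apply Finset.sum_congr rfl; intro b _
    rw [e3]
    simp only [GM, Matrix.of_apply]
    ring
  have hloc := local_on R hE'c hi' hk hON hHa hh hh1
  have hpos : ∀ θ : ℝ, 0 < (GM R E x (mul (dil h) (mul (rot θ) g))).det :=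
    fun θ => GM_det_pos R hE hx (mul_mem (dil_mem _) (mul_mem (rot_mem _) hg))
  have e6 : ∀ θ : ℝ, (1 + XM R E' m h θ).det ^ (-(1 / (k : ℝ)))
      = (GM R E x (mul (dil h) (mul (rot θ) g))).det ^ (-(1 / (k : ℝ)))
        / (GM R E x g).det ^ (-(1 / (k : ℝ))) := by
    intro θ
    rw [key, Real.div_rpow (hpos θ).le hdet.le]
  simp only [e6] at hloc
  rw [← Finset.sum_div, div_le_iff₀ (Real.rpow_pos_of_pos hdet _)] at hloc
  exact hloc

end Pool.Agent.Helper83.NS
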