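/-
MP_e98778_an, FULL PROJECT, MODULE H2 (NS), part (c): arcs.
-/
import Mathlib
import Pool.Agent.Helper83.NS.Gen

open MeasureTheory Set
open scoped ComplexConjugate Real InnerProductSpace

namespace Pool.Agent.Helper83.NS

/-- The matrix `[[1,0],[w,1]]`. -/
noncomputable def low (w : ℝ) : ℂ × ℂ := (1 + ((w / 2 : ℝ) : ℂ) * Complex.I, ((w / 2 : ℝ) : ℂ) * Complex.I)

theorem low_mem (w : ℝ) : low w ∈ SL := by
  simp only [SL, low, mem_ofPred_eq, Complex.normSq_apply, Complex.add_re, Complex.add_im,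
    Complex.mul_re, Complex.mul_im, Complex.one_re, Complex.one_im, Complex.ofReal_re,
    Complex.ofReal_im, Complex.I_re, Complex.I_im]
  ring

/-- The matrix `[[1/c, e w/c],[0, c]]`, `c = sqrt (1 + w^2)`. -/
noncomputable def up (w e : ℝ) : ℂ × ℂ :=
  (((((1 / Real.sqrt (1 + w ^ 2) + Real.sqrt (1 + w ^ 2)) / 2 : ℝ) : ℂ)
      - ((e * (w / Real.sqrt (1 + w ^ 2)) / 2 : ℝ) : ℂ) * Complex.I),
   ((((1 / Real.sqrt (1 + w ^ 2) - Real.sqrt (1 + w ^ 2)) / 2 : ℝ) : ℂ)
      + ((e * (w / Real.sqrt (1 + w ^ 2)) / 2 : ℝ) : ℂ) * Complex.I))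

theorem sqrt_facts (w : ℝ) : 0 < Real.sqrt (1 + w ^ 2) ∧
    Real.sqrt (1 + w ^ 2) * Real.sqrt (1 + w ^ 2) = 1 + w ^ 2 :=
  ⟨Real.sqrt_pos.2 (by positivity), Real.mul_self_sqrt (by positivity)⟩

theorem up_mem (w e : ℝ) : up w e ∈ SL := by
  obtain ⟨h1, h2⟩ := sqrt_facts w
  simp only [SL, up, mem_ofPred_eq, Complex.normSq_apply, Complex.add_re, Complex.add_im,
    Complex.sub_re, Complex.sub_im,
    Complex.mul_re, Complex.mul_im, Complex.ofReal_re,
    Complex.ofReal_im, Complex.I_re, Complex.I_im]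
  field_simp
  ring

theorem up_rot (w : ℝ) : mul (up w 1) (rot (Real.arctan w)) = low w := by
  obtain ⟨h1, h2⟩ := sqrt_facts w
  set c := Real.sqrt (1 + w ^ 2) with hc
  have e1 : (Complex.exp (Real.arctan w * Complex.I)).re = 1 / c := by
    rw [Complex.exp_ofReal_mul_I_re, Real.cos_arctan]
  have e2 : (Complex.exp (Real.arctan w * Complex.I)).im = w / c := by
    rw [Complex.exp_ofReal_mul_I_im, Real.sin_arctan]
  ext1
  · apply Complex.ext
    · simp only [mul, up, rot, low, map_zero, mul_zero, add_zero, Complex.mul_re, Complex.sub_re,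
        Complex.sub_im, Complex.add_re, Complex.mul_im, Complex.ofReal_re, Complex.ofReal_im,
        Complex.I_re, Complex.I_im, Complex.one_re, e1, e2, ← hc]
      field_simp
      nlinarith
    · simp only [mul, up, rot, low, map_zero, mul_zero, add_zero, Complex.mul_re, Complex.sub_re,
        Complex.sub_im, Complex.add_im, Complex.mul_im, Complex.ofReal_re, Complex.ofReal_im,
        Complex.I_re, Complex.I_im, Complex.one_im, e1, e2, ← hc]
      field_simp
      ring
  · apply Complex.ext
    · simp only [mul, up, rot, low, mul_zero, zero_add, Complex.mul_re, Complex.add_re,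
        Complex.add_im, Complex.mul_im, Complex.ofReal_re, Complex.ofReal_im,
        Complex.I_re, Complex.I_im, Complex.conj_re, Complex.conj_im, e1, e2, ← hc]
      field_simp
      nlinarith
    · simp only [mul, up, rot, low, mul_zero, zero_add, Complex.mul_re, Complex.add_re,
        Complex.add_im, Complex.mul_im, Complex.ofReal_re, Complex.ofReal_im,
        Complex.I_re, Complex.I_im, Complex.conj_re, Complex.conj_im, e1, e2, ← hc]
      field_simp
      ring

theorem dil_up (w t : ℝ) : mul (dil t) (up w 1) = mul (up w (Real.exp (-(2 * t)))) (dil t) := by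
  have h : Real.cosh t - Real.sinh t = Real.exp (-(2 * t)) * (Real.cosh t + Real.sinh t) := by
    rw [Real.cosh_sub_sinh, Real.cosh_add_sinh, ← Real.exp_add]; ring_nf
  have h2 : Real.cosh t - Real.sinh t - Real.exp (-(2 * t)) * (Real.cosh t + Real.sinh t) = 0 := by
    linarith
  ext1
  · apply Complex.ext
    · simp only [mul, up, dil, Complex.mul_re, Complex.add_re, Complex.sub_re, Complex.sub_im,
        Complex.add_im, Complex.mul_im, Complex.ofReal_re, Complex.ofReal_im, Complex.neg_re,
        Complex.neg_im, Complex.I_re, Complex.I_im, Complex.conj_re, Complex.conj_im]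
      ring
    · simp only [mul, up, dil, Complex.mul_re, Complex.add_re, Complex.sub_re, Complex.sub_im,
        Complex.add_im, Complex.mul_im, Complex.ofReal_re, Complex.ofReal_im, Complex.neg_re,
        Complex.neg_im, Complex.I_re, Complex.I_im, Complex.conj_re, Complex.conj_im]
      linear_combination (-(w / Real.sqrt (1 + w ^ 2)) / 2) * h
  · apply Complex.ext
    · simp only [mul, up, dil, Complex.mul_re, Complex.add_re, Complex.sub_re, Complex.sub_im,
        Complex.add_im, Complex.mul_im, Complex.ofReal_re, Complex.ofReal_im, Complex.neg_re,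
        Complex.neg_im, Complex.I_re, Complex.I_im, Complex.conj_re, Complex.conj_im]
      ring
    · simp only [mul, up, dil, Complex.mul_re, Complex.add_re, Complex.sub_re, Complex.sub_im,
        Complex.add_im, Complex.mul_im, Complex.ofReal_re, Complex.ofReal_im, Complex.neg_re,
        Complex.neg_im, Complex.I_re, Complex.I_im, Complex.conj_re, Complex.conj_im]
      linear_combination ((w / Real.sqrt (1 + w ^ 2)) / 2) * h

theorem opn_inv (g : ℂ × ℂ) : opn (inv g) = opn g := by
  simp [opn, inv]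

theorem opn_up {w e : ℝ} (hw : |w| ≤ 1) (he0 : 0 ≤ e) (he1 : e ≤ 1) : opn (up w e) ≤ 3 := by
  obtain ⟨h1, h2⟩ := sqrt_facts w
  set c := Real.sqrt (1 + w ^ 2) with hc
  have hw2 : w ^ 2 ≤ 1 := by
    have := abs_le.1 hw; nlinarith
  have hc1 : 1 ≤ c := by nlinarith [sq_nonneg w]
  have hc2 : c ≤ 3 / 2 := by nlinarith
  have hq : |e * (w / c) / 2| ≤ 1 / 2 := by
    rw [abs_div, abs_mul, abs_div, abs_of_nonneg he0, abs_of_pos h1, abs_of_pos (by norm_num : (0:ℝ) < 2)]
    have : |w| / c ≤ 1 := by rw [div_le_one h1]; linarith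
    have h3 : 0 ≤ |w| / c := by positivity
    nlinarith
  have hcinv : 1 / c ≤ 1 := by rw [div_le_one h1]; exact hc1
  have hcinv0 : 0 < 1 / c := by positivity
  have hI : ∀ r : ℝ, ‖((r : ℝ) : ℂ) * Complex.I‖ = |r| := by
    intro r; simp
  have hR : ∀ r : ℝ, ‖((r : ℝ) : ℂ)‖ = |r| := fun r => Complex.norm_real r
  unfold opn up
  simp only [← hc]
  have a1 : ‖((((1 / c + c) / 2 : ℝ) : ℂ) - ((e * (w / c) / 2 : ℝ) : ℂ) * Complex.I)‖
      ≤ (1 / c + c) / 2 + 1 / 2 := by
    refine (norm_sub_le _ _).trans ?_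
    rw [hI, hR, abs_of_nonneg (by positivity : (0 : ℝ) ≤ (1 / c + c) / 2)]
    linarith
  have a2 : ‖((((1 / c - c) / 2 : ℝ) : ℂ) + ((e * (w / c) / 2 : ℝ) : ℂ) * Complex.I)‖
      ≤ (c - 1 / c) / 2 + 1 / 2 := by
    refine (norm_add_le _ _).trans ?_
    rw [hI, hR, abs_of_nonpos (by linarith : (1 / c - c) / 2 ≤ 0)]
    linarith
  linarith

variable {L : Type*} [NormedAddCommGroup L] [InnerProductSpace ℝ L] [CompleteSpace L]

/-- **Volumes do not shrink** (rank `k ≥ 1`, determinants). -/
theorem arcs (R : Refl L) {E : Submodule ℝ L} (hE : IsClosed (E : Set L)) (hi : Iso R E)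
    {k : ℕ} (hk : 1 ≤ k) {x : Fin k → L × ℝ} (hx : Ind E x) (hcl : ∀ i, Cl R E (x i).1)
    {g : ℂ × ℂ} (hg : g ∈ SL) {t : ℝ} (ht : 0 ≤ t) {ρ : ℝ} (hρ : 0 < ρ) :
    volume {w : ℝ | w ∈ Icc (-1 : ℝ) 1 ∧
      (GM R E x (mul (dil t) (mul (low w) g))).det ≤ ρ * (GM R E x g).det}
      ≤ ENNReal.ofReal (120 * ρ ^ (1 / (k : ℝ))) := by
  have hk' : (1 : ℝ) ≤ k := by exact_mod_cast hk
  have hk0 : (0 : ℝ) < k := by linarith
  set p := 1 / (k : ℝ) with hp
  have hp0 : 0 < p := by positivity
  set F : ℂ × ℂ → ℝ := fun g => (GM R E x g).det ^ (-p) with hF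
  have hdet : ∀ g ∈ SL, 0 < (GM R E x g).det := fun g hg => GM_det_pos R hE hx hg
  have hFc : ContinuousOn F SL := by
    apply ContinuousOn.rpow_const (continuousOn_GM_det R hE x)
    intro g hg
    exact Or.inl (hdet g hg).ne'
  have hF0 : ∀ g ∈ SL, 0 ≤ F g := fun g hg => Real.rpow_nonneg (hdet g hg).le _
  have hFK : ∀ θ : ℝ, ∀ g ∈ SL, F (mul (rot θ) g) = F g := by
    intro θ g hg
    have : GM R E x (mul (rot θ) g) = GM R E x g := by
      ext i j
      simp only [GM, Matrix.of_apply, R.gm_rot hE hg]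
    simp only [hF, this]
  have hloc : ∀ h : ℝ, 0 < h → h ≤ 1 / (100 * k) → ∀ g ∈ SL,
      ∑ i ∈ Finset.range 4, F (mul (dil h) (mul (rot (i * (π / 4))) g))
        ≤ 4 * (1 + (5200 * k ^ 2) * h ^ 3) * F g := by
    intro h hh hh1 g hg
    exact local_gen R hE hi hk hx hcl hg hh hh1
  have havg := avg_le hFc hF0 hFK (C := 5200 * k ^ 2) (h₀ := 1 / (100 * k)) (by positivity) hloc
    hg ht
  set T : ℝ → ℝ := fun θ => F (mul (dil t) (mul (rot θ) g)) with hT
  have hTc : Continuous T := continuous_slice hFc (dil_mem t) hg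
  have hT0 : ∀ θ, 0 ≤ T θ := fun θ => hF0 _ (mul_mem (dil_mem t) (mul_mem (rot_mem θ) hg))
  have hper : Function.Periodic T (2 * π) := by
    intro θ; simp only [hT, rot_two_pi]
  have hI1 : ∫ θ in (-π)..π, T θ ≤ 2 * π * F g := by
    have := hper.intervalIntegral_add_eq (-π) 0
    rw [zero_add] at this
    have e : -π + 2 * π = π := by ring
    rw [e] at this
    rw [this]; exact havg
  have hI2 : ∫ θ in (-(π / 4))..(π / 4), T θ ≤ 2 * π * F g := by
    refine le_trans ?_ hI1
    apply intervalIntegral.integral_mono_interval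
    · have := Real.pi_pos; linarith
    · have := Real.pi_pos; linarith
    · have := Real.pi_pos; linarith
    · exact Filter.Eventually.of_forall hT0
    · exact hTc.intervalIntegrable _ _
  have hI3 : ∫ w in (-1 : ℝ)..1, T (Real.arctan w) * (1 / (1 + w ^ 2)) ≤ 2 * π * F g := by
    have := intervalIntegral.integral_comp_mul_deriv (a := -1) (b := 1) (f := Real.arctan)
      (f' := fun w => 1 / (1 + w ^ 2)) (g := T) (fun w _ => Real.hasDerivAt_arctan w)
      (by
        apply Continuous.continuousOn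
        apply Continuous.div continuous_const (by fun_prop)
        intro w; positivity) hTc
    simp only [Function.comp] at this
    rw [this, Real.arctan_neg, Real.arctan_one]
    exact hI2
  have hTac : Continuous (fun w => T (Real.arctan w)) := hTc.comp Real.continuous_arctan
  have hI4 : ∫ w in (-1 : ℝ)..1, T (Real.arctan w) ≤ 4 * π * F g := by
    have : ∫ w in (-1 : ℝ)..1, T (Real.arctan w)
        ≤ ∫ w in (-1 : ℝ)..1, 2 * (T (Real.arctan w) * (1 / (1 + w ^ 2))) := by
      apply intervalIntegral.integral_mono_on (by norm_num)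
      · exact hTac.intervalIntegrable _ _
      · apply Continuous.intervalIntegrable
        apply Continuous.mul continuous_const
        apply Continuous.mul hTac
        apply Continuous.div continuous_const (by fun_prop)
        intro w; positivity
      · intro w hw
        have h1 : 1 / 2 ≤ 1 / (1 + w ^ 2) := by
          apply one_div_le_one_div_of_le (by positivity)
          nlinarith [hw.1, hw.2]
        have h2 := hT0 (Real.arctan w)
        nlinarith
    rw [intervalIntegral.integral_const_mul] at this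
    linarith
  -- Markov
  have hFg : 0 < F g := Real.rpow_pos_of_pos (hdet g hg) _
  set lam : ℝ := (9 * ρ ^ p)⁻¹ with hlam
  have hρp : 0 < ρ ^ p := Real.rpow_pos_of_pos hρ _
  have hlam0 : 0 < lam := by positivity
  set S : Set ℝ := {w | w ∈ Icc (-1 : ℝ) 1 ∧
      (GM R E x (mul (dil t) (mul (low w) g))).det ≤ ρ * (GM R E x g).det} with hS
  set S' : Set ℝ := {w | lam * F g ≤ T (Real.arctan w)} with hS'
  have hsub : S ⊆ S' ∩ Icc (-1 : ℝ) 1 := by
    intro w hw
    refine ⟨?_, hw.1⟩
    have hw1 : |w| ≤ 1 := abs_le.2 hw.1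
    set g' := mul (dil t) (mul (low w) g) with hg'
    have hg'm : g' ∈ SL := mul_mem (dil_mem t) (mul_mem (low_mem w) hg)
    set e := Real.exp (-(2 * t)) with he
    have he0 : 0 ≤ e := (Real.exp_pos _).le
    have he1 : e ≤ 1 := Real.exp_le_one_iff.2 (by linarith)
    have heq : mul (inv (up w e)) g' = mul (dil t) (mul (rot (Real.arctan w)) g) := by
      have h1 : g' = mul (up w e) (mul (dil t) (mul (rot (Real.arctan w)) g)) := by
        rw [hg', ← up_rot, mul_assoc', ← mul_assoc' (dil t), dil_up, mul_assoc']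
      rw [h1, ← mul_assoc', inv_mul' (up_mem w e), one_mul']
    have h2 := GM_det_mul_le R hE hx hg'm (d := inv (up w e)) (C := 3)
      (by rw [opn_inv]; exact opn_up hw1 he0 he1) (by norm_num)
    rw [heq] at h2
    have h3 : (GM R E x (mul (dil t) (mul (rot (Real.arctan w)) g))).det
        ≤ ((3 : ℝ) ^ 2) ^ k * (ρ * (GM R E x g).det) := by
      refine h2.trans ?_
      exact mul_le_mul_of_nonneg_left hw.2 (by positivity)
    have h4 : 0 < (GM R E x (mul (dil t) (mul (rot (Real.arctan w)) g))).det :=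
      hdet _ (mul_mem (dil_mem t) (mul_mem (rot_mem _) hg))
    have h5 : ((((3 : ℝ) ^ 2) ^ k * (ρ * (GM R E x g).det)) ^ (-p)) ≤ T (Real.arctan w) := by
      apply Real.rpow_le_rpow_of_nonpos h4 h3
      linarith
    have h6 : ((((3 : ℝ) ^ 2) ^ k * (ρ * (GM R E x g).det)) ^ (-p)) = lam * F g := by
      have hdg := hdet g hg
      rw [Real.mul_rpow (by positivity) (by positivity), Real.mul_rpow hρ.le hdg.le]
      have h7 : (((3 : ℝ) ^ 2) ^ k) ^ (-p) = 9⁻¹ := by
        rw [← Real.rpow_natCast ((3 : ℝ) ^ 2) k, ← Real.rpow_mul (by positivity)]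
        have : (k : ℝ) * -p = -1 := by rw [hp]; field_simp
        rw [this, Real.rpow_neg_one]; norm_num
      rw [h7, Real.rpow_neg hρ.le, hlam, mul_inv]
      simp only [hF]
      ring
    rw [h6] at h5
    exact h5
  have hmark : lam * F g * (volume.restrict (Icc (-1 : ℝ) 1)).real S' ≤ 4 * π * F g := by
    have hint : Integrable (fun w => T (Real.arctan w)) (volume.restrict (Icc (-1 : ℝ) 1)) :=
      hTac.continuousOn.integrableOn_compact isCompact_Icc
    have h1 := mul_meas_ge_le_integral_of_nonneg (μ := volume.restrict (Icc (-1 : ℝ) 1))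
      (f := fun w => T (Real.arctan w)) (Filter.Eventually.of_forall fun w => hT0 _) hint
      (lam * F g)
    refine h1.trans ?_
    rw [integral_Icc_eq_integral_Ioc, ← intervalIntegral.integral_of_le (by norm_num)]
    exact hI4
  have hS'm : MeasurableSet S' := measurableSet_le measurable_const hTac.measurable
  have hreal : (volume.restrict (Icc (-1 : ℝ) 1)).real S' ≤ 120 * ρ ^ p := by
    have h1 : lam * (volume.restrict (Icc (-1 : ℝ) 1)).real S' ≤ 4 * π := by
      have : F g * (lam * (volume.restrict (Icc (-1 : ℝ) 1)).real S') ≤ F g * (4 * π) := by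
        linarith
      exact le_of_mul_le_mul_left this hFg
    have h2 : (volume.restrict (Icc (-1 : ℝ) 1)).real S' ≤ 4 * π * (9 * ρ ^ p) := by
      rw [hlam, inv_mul_le_iff₀ (by positivity)] at h1
      linarith
    have hpi := Real.pi_lt_d2
    nlinarith
  calc volume S ≤ volume (S' ∩ Icc (-1 : ℝ) 1) := measure_mono hsub
    _ = (volume.restrict (Icc (-1 : ℝ) 1)) S' := (Measure.restrict_apply hS'm).symm
    _ = ENNReal.ofReal ((volume.restrict (Icc (-1 : ℝ) 1)).real S') := by
        rw [measureReal_def, ENNReal.ofReal_toReal]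
        exact measure_ne_top _ _
    _ ≤ ENNReal.ofReal (120 * ρ ^ p) := ENNReal.ofReal_le_ofReal hreal

end Pool.Agent.Helper83.NS
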