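/-
MP_e98778_an, FULL PROJECT, MODULE H2 (NS), part (d): transfer to helper45's structure `Sys`.
-/
import Mathlib
import Pool.Agent.Helper83.NS.Arc
import Pool.Agent.Helper45.TFL.Defs

open MeasureTheory Set
open scoped ComplexConjugate Real InnerProductSpace

namespace Pool.Agent.Helper83.NS

theorem dil_add (s t : ℝ) : mul (dil t) (dil s) = dil (s + t) := by
  ext1
  · simp only [mul, dil, map_neg, Complex.conj_ofReal, Real.cosh_add, Real.sinh_add]
    push_cast; ring
  · simp only [mul, dil, Complex.conj_ofReal, Real.sinh_add]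
    push_cast; ring

theorem low_add (w u : ℝ) : mul (low w) (low u) = low (w + u) := by
  ext1
  · simp only [mul, low, map_mul, Complex.conj_ofReal, Complex.conj_I]
    push_cast
    linear_combination (0 : ℂ) * Complex.I_sq
  · simp only [mul, low, map_mul, map_add, map_one, Complex.conj_ofReal, Complex.conj_I]
    push_cast
    linear_combination (0 : ℂ) * Complex.I_sq

theorem low_dil (w s : ℝ) :
    mul (low w) (dil s) = mul (dil s) (low (w * Real.exp (-(2 * s)))) := by
  have h : Real.cosh s - Real.sinh s = Real.exp (-(2 * s)) * (Real.cosh s + Real.sinh s) := by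
    rw [Real.cosh_sub_sinh, Real.cosh_add_sinh, ← Real.exp_add]; ring_nf
  ext1
  · apply Complex.ext
    · simp only [mul, low, dil, Complex.mul_re, Complex.add_re,
        Complex.add_im, Complex.mul_im, Complex.ofReal_re, Complex.ofReal_im, Complex.neg_re,
        Complex.neg_im, Complex.I_re, Complex.I_im, Complex.conj_re, Complex.conj_im,
        Complex.one_re, Complex.one_im]
      ring
    · simp only [mul, low, dil, Complex.mul_re, Complex.add_re,
        Complex.add_im, Complex.mul_im, Complex.ofReal_re, Complex.ofReal_im, Complex.neg_re,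
        Complex.neg_im, Complex.I_re, Complex.I_im, Complex.conj_re, Complex.conj_im,
        Complex.one_re, Complex.one_im]
      linear_combination (w / 2) * h
  · apply Complex.ext
    · simp only [mul, low, dil, Complex.mul_re, Complex.add_re,
        Complex.add_im, Complex.mul_im, Complex.ofReal_re, Complex.ofReal_im, Complex.neg_re,
        Complex.neg_im, Complex.I_re, Complex.I_im, Complex.conj_re, Complex.conj_im,
        Complex.one_re, Complex.one_im]
      ring
    · simp only [mul, low, dil, Complex.mul_re, Complex.add_re,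
        Complex.add_im, Complex.mul_im, Complex.ofReal_re, Complex.ofReal_im, Complex.neg_re,
        Complex.neg_im, Complex.I_re, Complex.I_im, Complex.conj_re, Complex.conj_im,
        Complex.one_re, Complex.one_im]
      linear_combination (w / 2) * h

/-- The level `(s,u)`: the matrix `D_s L_u`. -/
noncomputable def lv (s u : ℝ) : ℂ × ℂ := mul (dil s) (low u)

theorem lv_mem (s u : ℝ) : lv s u ∈ SL := mul_mem (dil_mem s) (low_mem u)

theorem lv_step (s t u u₀ : ℝ) :
    lv (s + t) u = mul (dil t) (mul (low ((u - u₀) * Real.exp (2 * s))) (lv s u₀)) := by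
  unfold lv
  rw [← mul_assoc' (low _), low_dil, mul_assoc', low_add, ← mul_assoc', dil_add]
  have : (u - u₀) * Real.exp (2 * s) * Real.exp (-(2 * s)) + u₀ = u := by
    rw [mul_assoc, ← Real.exp_add]; simp
  rw [this]

open Pool.Agent.TFL

variable {L : Type*} [NormedAddCommGroup L] [InnerProductSpace ℝ L] [CompleteSpace L]
variable {V : Type} [AddCommGroup V] [Module ℝ V]

/-- **(NS)** for a system whose forms are the quotient forms in a Hilbert space. -/
theorem NS_of_model [FiniteDimensional ℝ V] (Sg : Sys V) (R : Refl L) {E : Submodule ℝ L}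
    (hE : IsClosed (E : Set L)) (hi : Iso R E) (cls : V →ₗ[ℝ] L) (hcl : ∀ x, Cl R E (cls x))
    (hker : ∀ x, cls x ∈ E → x = 0) {c : ℝ} (hc : 0 < c)
    (hN : ∀ s u x, Sg.N s u x x = c * R.gm E (lv s u) (cls x) (cls x)) :
    Sg.NS 120 (2 / (Module.finrank ℝ V + 1)) := by
  have hNs : ∀ s u x y, Sg.N s u x y = Sg.N s u y x := by
    intro s u x y
    simp only [Sys.N, LinearMap.mk₂_apply]
    rw [Sg.Gsymm s u x y]
    ring
  have hNp : ∀ s u x y, Sg.N s u x y = c * R.gm E (lv s u) (cls x) (cls y) := by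
    intro s u x y
    have h1 := hN s u (x + y)
    have h2 := hN s u (x - y)
    simp only [map_add, map_sub, LinearMap.add_apply, LinearMap.sub_apply, R.gm_add_left,
      R.gm_add_right, R.gm_sub_left, R.gm_sub_right] at h1 h2
    rw [hNs s u y x, R.gm_symm E (lv s u) (cls y) (cls x)] at h1 h2
    linarith
  intro r z hz s t u₀ ρ ht hρ
  set D : ℝ := Module.finrank ℝ V + 1 with hD
  have hD1 : 1 ≤ D := by rw [hD]; linarith [Nat.cast_nonneg (α := ℝ) (Module.finrank ℝ V)]
  have hexp : 0 < Real.exp (2 * s) := Real.exp_pos _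
  have hexpm : 0 < Real.exp (-(2 * s)) := Real.exp_pos _
  have hee : Real.exp (2 * s) * Real.exp (-(2 * s)) = 1 := by rw [← Real.exp_add]; simp
  -- the trivial bound
  have htriv : 1 ≤ ρ → volume {u | |u - u₀| ≤ Real.exp (-(2 * s)) ∧
      vol (Sg.F (s + t) u 0) z ≤ ρ * vol (Sg.F s u₀ 0) z} ≤
      ENNReal.ofReal (120 * ρ ^ (2 / D) * Real.exp (-(2 * s))) := by
    intro h1
    have hsub : {u | |u - u₀| ≤ Real.exp (-(2 * s)) ∧
        vol (Sg.F (s + t) u 0) z ≤ ρ * vol (Sg.F s u₀ 0) z}
        ⊆ Icc (u₀ - Real.exp (-(2 * s))) (u₀ + Real.exp (-(2 * s))) := by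
      intro u hu
      have := abs_le.1 hu.1
      constructor <;> linarith [this.1, this.2]
    refine (measure_mono hsub).trans ?_
    rw [Real.volume_Icc]
    apply ENNReal.ofReal_le_ofReal
    have h2 : 1 ≤ ρ ^ (2 / D) := Real.one_le_rpow h1 (by positivity)
    nlinarith
  by_cases hρ1 : 1 ≤ ρ
  · exact htriv hρ1
  push Not at hρ1
  rcases Nat.eq_zero_or_pos r with hr | hr
  · subst hr
    have : {u | |u - u₀| ≤ Real.exp (-(2 * s)) ∧
        vol (Sg.F (s + t) u 0) z ≤ ρ * vol (Sg.F s u₀ 0) z} = ∅ := by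
      ext u
      simp only [mem_ofPred_eq, mem_empty_iff_false, iff_false, not_and, not_le]
      intro _
      simp only [vol, Matrix.det_fin_zero, Real.sqrt_one]
      linarith
    rw [this, measure_empty]
    exact bot_le
  -- the family in the Hilbert space
  set X : Fin r → L × ℝ := fun i => (Real.sqrt c • cls (z i).1, (z i).2) with hX
  have hsc : Real.sqrt c * Real.sqrt c = c := Real.mul_self_sqrt hc.le
  have hsc0 : 0 < Real.sqrt c := Real.sqrt_pos.2 hc
  have hGM : ∀ s u, (Matrix.of fun i j => Sg.F s u 0 (z i) (z j)) = GM R E X (lv s u) := by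
    intro s u
    ext i j
    simp only [GM, Matrix.of_apply, Sys.F, LinearMap.mk₂_apply, Sys.aff_apply, smul_zero, zero_sub,
      map_neg, LinearMap.neg_apply, neg_neg, hX]
    rw [hNp]
    simp only [Refl.gm, map_smul, real_inner_smul_left, real_inner_smul_right]
    rw [← mul_assoc, hsc]
  have hXI : Ind E X := by
    intro a ha ⟨h1, h2⟩
    apply ha
    have h3 : cls (∑ i, a i • (z i).1) ∈ E := by
      have e : ∑ i, a i • (X i).1 = Real.sqrt c • cls (∑ i, a i • (z i).1) := by
        simp only [hX, map_sum, map_smul, Finset.smul_sum]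
        apply Finset.sum_congr rfl
        intro i _
        rw [smul_comm]
      rw [e] at h1
      have := E.smul_mem (Real.sqrt c)⁻¹ h1
      rwa [smul_smul, inv_mul_cancel₀ hsc0.ne', one_smul] at this
    have h4 : ∑ i, a i • (z i).1 = 0 := hker _ h3
    have h5 : ∑ i, a i • z i = 0 := by
      apply Prod.ext
      · rw [Prod.fst_sum]; simpa using h4
      · rw [Prod.snd_sum]
        simpa [hX] using h2
    have := Fintype.linearIndependent_iff.1 hz a h5
    exact funext this
  have hXC : ∀ i, Cl R E (X i).1 := by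
    intro i e he
    simp only [hX, map_smul, real_inner_smul_left]
    rw [hcl _ e he, mul_zero]
  have hmain := arcs R hE hi hr hXI hXC (lv_mem s u₀) ht (ρ := ρ ^ 2) (by positivity)
  set W : Set ℝ := {w : ℝ | w ∈ Icc (-1 : ℝ) 1 ∧
      (GM R E X (mul (dil t) (mul (low w) (lv s u₀)))).det ≤ ρ ^ 2 * (GM R E X (lv s u₀)).det}
    with hW
  have hsub : {u | |u - u₀| ≤ Real.exp (-(2 * s)) ∧
      vol (Sg.F (s + t) u 0) z ≤ ρ * vol (Sg.F s u₀ 0) z} ⊆
      (fun u => -u₀ + u) ⁻¹' ((fun v => Real.exp (2 * s) * v) ⁻¹' W) := by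
    intro u hu
    have h1 := abs_le.1 hu.1
    have h2 := hu.2
    simp only [vol, hGM] at h2
    have hd1 : 0 ≤ (GM R E X (lv (s + t) u)).det := (GM_psd R E X _).det_nonneg
    have hd2 : 0 ≤ (GM R E X (lv s u₀)).det := (GM_psd R E X _).det_nonneg
    have h3 : (GM R E X (lv (s + t) u)).det ≤ ρ ^ 2 * (GM R E X (lv s u₀)).det := by
      have h4 := pow_le_pow_left₀ (Real.sqrt_nonneg _) h2 2
      rwa [mul_pow, Real.sq_sqrt hd1, Real.sq_sqrt hd2] at h4
    simp only [mem_preimage, hW, mem_ofPred_eq]
    have e : Real.exp (2 * s) * (-u₀ + u) = (u - u₀) * Real.exp (2 * s) := by ring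
    rw [e, ← lv_step]
    refine ⟨⟨?_, ?_⟩, h3⟩
    · nlinarith [h1.1]
    · nlinarith [h1.2]
  have hrD : (r : ℝ) ≤ D := by
    have h1 := hz.fintype_card_le_finrank
    rw [Fintype.card_fin, Module.finrank_prod, Module.finrank_self] at h1
    rw [hD]; exact_mod_cast h1
  have hr' : (1 : ℝ) ≤ r := by exact_mod_cast hr
  calc volume {u | |u - u₀| ≤ Real.exp (-(2 * s)) ∧
      vol (Sg.F (s + t) u 0) z ≤ ρ * vol (Sg.F s u₀ 0) z}
      ≤ volume ((fun u => -u₀ + u) ⁻¹' ((fun v => Real.exp (2 * s) * v) ⁻¹' W)) :=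
        measure_mono hsub
    _ = volume ((fun v => Real.exp (2 * s) * v) ⁻¹' W) := measure_preimage_add _ _ _
    _ = ENNReal.ofReal |(Real.exp (2 * s))⁻¹| * volume W :=
        Real.volume_preimage_mul_left hexp.ne' _
    _ ≤ ENNReal.ofReal (Real.exp (-(2 * s))) * ENNReal.ofReal (120 * (ρ ^ 2) ^ (1 / (r : ℝ))) := by
        have : |(Real.exp (2 * s))⁻¹| = Real.exp (-(2 * s)) := by
          rw [abs_of_pos (by positivity), Real.exp_neg]
        rw [this]
        exact mul_le_mul_right hmain _
    _ = ENNReal.ofReal (Real.exp (-(2 * s)) * (120 * (ρ ^ 2) ^ (1 / (r : ℝ)))) :=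
        (ENNReal.ofReal_mul hexpm.le).symm
    _ ≤ ENNReal.ofReal (120 * ρ ^ (2 / D) * Real.exp (-(2 * s))) := by
        apply ENNReal.ofReal_le_ofReal
        have e : (ρ ^ 2) ^ (1 / (r : ℝ)) = ρ ^ (2 / (r : ℝ)) := by
          rw [← Real.rpow_natCast, ← Real.rpow_mul hρ.le]
          congr 1
          push_cast; ring
        have h2 : ρ ^ (2 / (r : ℝ)) ≤ ρ ^ (2 / D) := by
          apply Real.rpow_le_rpow_of_exponent_ge hρ hρ1.le
          apply div_le_div_of_nonneg_left (by norm_num) (by linarith) hrD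
        rw [e]
        nlinarith

end Pool.Agent.Helper83.NS
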